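import Mathlib

/-!
# MP_cabd9e_co: every ternary word of length 8 contains an abelian square
-/

set_option autoImplicit false
set_option maxRecDepth 1000000

namespace Pool.Agent.Work.MP_cabd9e_co

/-- does the reversed word `w` end with an abelian square? -/
def endsSq (w : List ℕ) : Bool :=
  (List.range 5).any fun p => decide (1 ≤ p) && decide (2 * p ≤ w.length) &&
    (List.range 3).all fun a => (w.take p).count a == ((w.drop p).take p).count a

/-- does every extension of `w` by `n` letters contain an abelian square? -/
def ext : ℕ → List ℕ → Bool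
  | 0, w => endsSq w
  | n + 1, w => endsSq w || (ext n (0 :: w) && ext n (1 :: w) && ext n (2 :: w))

theorem ext8 : ext 8 [] = true := by decide +kernel

/-- the reversed prefix -/
def rv (x : ℕ → Fin 3) : ℕ → List ℕ
  | 0 => []
  | m + 1 => (x m).val :: rv x m

theorem length_rv (x : ℕ → Fin 3) (m : ℕ) : (rv x m).length = m := by
  induction m with
  | zero => rfl
  | succ m ih => simp [rv, ih]

theorem drop_rv (x : ℕ → Fin 3) (s p : ℕ) : (rv x (s + p)).drop p = rv x s := by
  induction p with
  | zero => rfl
  | succ p ih => exact ih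

theorem count_rv (x : ℕ → Fin 3) (s p : ℕ) (a : Fin 3) :
    ((rv x (s + p)).take p).count a.val =
      ((Finset.range p).filter (fun j => x (s + j) = a)).card := by
  induction p with
  | zero => rfl
  | succ p ih =>
    have h1 : (rv x (s + (p + 1))).take (p + 1) = (x (s + p)).val :: (rv x (s + p)).take p := rfl
    rw [h1, List.count_cons, ih, Finset.range_add_one, Finset.filter_insert]
    by_cases h : x (s + p) = a
    · rw [if_pos h, h, Finset.card_insert_of_notMem (by simp)]
      simp
    · rw [if_neg h]
      have : ((x (s + p)).val == a.val) = false := by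
        rw [beq_eq_false_iff_ne]
        exact fun h' => h (Fin.ext h')
      rw [this]
      simp

theorem sound (x : ℕ → Fin 3) : ∀ n m : ℕ, ext n (rv x m) = true → ∃ i p : ℕ, 1 ≤ p ∧
    ∀ a : Fin 3, ((Finset.range p).filter (fun j => x (i + j) = a)).card =
      ((Finset.range p).filter (fun j => x (i + p + j) = a)).card := by
  have base : ∀ m : ℕ, endsSq (rv x m) = true → ∃ i p : ℕ, 1 ≤ p ∧
    ∀ a : Fin 3, ((Finset.range p).filter (fun j => x (i + j) = a)).card =
      ((Finset.range p).filter (fun j => x (i + p + j) = a)).card := by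
    intro m h
    unfold endsSq at h
    rw [List.any_eq_true] at h
    obtain ⟨p, hp, h⟩ := h
    rw [Bool.and_eq_true, Bool.and_eq_true, decide_eq_true_eq, decide_eq_true_eq,
      List.all_eq_true, length_rv] at h
    obtain ⟨⟨h1, h2⟩, h3⟩ := h
    obtain ⟨i, rfl⟩ : ∃ i, m = i + p + p := ⟨m - 2 * p, by omega⟩
    refine ⟨i, p, h1, fun a => ?_⟩
    have h4 := h3 a.val (by simp)
    rw [beq_iff_eq, drop_rv, count_rv, count_rv] at h4
    exact h4.symm
  intro n
  induction n with
  | zero => exact base
  | succ n ih =>
    intro m h
    unfold ext at h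
    rw [Bool.or_eq_true, Bool.and_eq_true, Bool.and_eq_true] at h
    rcases h with h | ⟨⟨h0, h1⟩, h2⟩
    · exact base m h
    · apply ih (m + 1)
      have hx : rv x (m + 1) = (x m).val :: rv x m := rfl
      rw [hx]
      have := (x m).2
      interval_cases h : (x m).val
      · exact h0
      · exact h1
      · exact h2

theorem exists_square (x : ℕ → Fin 3) : ∃ i p : ℕ, 1 ≤ p ∧ ∀ a : Fin 3,
    ((Finset.range p).filter (fun j => x (i + j) = a)).card =
      ((Finset.range p).filter (fun j => x (i + p + j) = a)).card :=
  sound x 8 0 ext8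

end Pool.Agent.Work.MP_cabd9e_co
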