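import Pool.Agent.Work.MP_cabd9e_co.LevelSound

/-!
# MP_cabd9e_co: the counting functions of the image word
-/

set_option autoImplicit false

namespace Pool.Agent.Work.MP_cabd9e_co

/-- the image word -/
def Img.xs (D : Img) (P : ℕ) : ℕ := (D.word (lt (rr (P / D.L)))).getD (P % D.L) 0

/-- number of occurrences of `c` among the first `P` letters -/
def Img.cnt (D : Img) (c P : ℕ) : ℕ := ∑ j ∈ Finset.range P, if D.xs j = c then 1 else 0

def adjT : List (ℕ × ℕ) :=
  (List.range 12).flatMap fun i => [(tr i 0, tr i 1), (tr i 1, tr i 2)]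

/-- vector of the letter, by refined letter -/
def d2 (i : ℕ) : ℤ := [2, -1, -2, -3, 3, 1].getD (lt i) 0
def d3 (i : ℕ) : ℤ := [1, 0, -1, -2, 2, 0].getD (lt i) 0

/-- closure of the adjacency relation under the substitution (three rounds suffice) -/
def adjC (l : List (ℕ × ℕ)) : List (ℕ × ℕ) :=
  (l ++ l.map fun x => (tr x.1 2, tr x.2 0)).dedup

def adjL : List (ℕ × ℕ) := adjC (adjC (adjC (adjC (adjT.dedup))))

theorem adj_in : ∀ i < 12, (tr i 0, tr i 1) ∈ adjL ∧ (tr i 1, tr i 2) ∈ adjL := by decide +kernel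

theorem adj_step : ∀ x ∈ adjL, (tr x.1 2, tr x.2 0) ∈ adjL := by decide +kernel

theorem diff_in : ∀ i < 12, lq2 i 1 - lq2 i 0 = d2 (tr i 0) ∧ lq3 i 1 - lq3 i 0 = d3 (tr i 0) ∧
    lq2 i 2 - lq2 i 1 = d2 (tr i 1) ∧ lq3 i 2 - lq3 i 1 = d3 (tr i 1) ∧
    3 * d3 i - lq2 i 2 = d2 (tr i 2) ∧ d2 i - lq3 i 2 = d3 (tr i 2) ∧
    lq2 i 0 = 0 ∧ lq3 i 0 = 0 := by decide +kernel

theorem adj_all (n : ℕ) : (rr n, rr (n + 1)) ∈ adjL ∧
    (Qp (n + 1)).1 = (Qp n).1 + d2 (rr n) ∧ (Qp (n + 1)).2 = (Qp n).2 + d3 (rr n) := by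
  induction n using Nat.strong_induction_on with
  | _ n ih =>
    have hi := rr_lt (n / 3)
    obtain ⟨e1, e2, e3, e4, e5, e6, e7, e8⟩ := diff_in _ hi
    have a := adj_in _ hi
    have r1 := rr_rec n
    have r2 := rr_rec (n + 1)
    have s1 := Qp_rec n
    have s2 := Qp_rec (n + 1)
    have h3 : n % 3 = 0 ∨ n % 3 = 1 ∨ n % 3 = 2 := by omega
    rcases h3 with h | h | h
    · have f1 : (n + 1) / 3 = n / 3 := by omega
      have f2 : (n + 1) % 3 = 1 := by omega
      rw [f1, f2] at r2 s2
      rw [h] at r1 s1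
      rw [r1, r2, s1, s2]
      exact ⟨a.1, by simp only; linarith, by simp only; linarith⟩
    · have f1 : (n + 1) / 3 = n / 3 := by omega
      have f2 : (n + 1) % 3 = 2 := by omega
      rw [f1, f2] at r2 s2
      rw [h] at r1 s1
      rw [r1, r2, s1, s2]
      exact ⟨a.2, by simp only; linarith, by simp only; linarith⟩
    · have f1 : (n + 1) / 3 = n / 3 + 1 := by omega
      have f2 : (n + 1) % 3 = 0 := by omega
      rw [f1, f2] at r2 s2
      rw [h] at r1 s1
      obtain ⟨i1, i2, i3⟩ := ih (n / 3) (by omega)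
      obtain ⟨_, _, _, _, _, _, g7, g8⟩ := diff_in _ (rr_lt (n / 3 + 1))
      rw [r1, r2, s1, s2]
      refine ⟨adj_step _ i1, ?_, ?_⟩
      · simp only; linarith
      · simp only; linarith

theorem preList_get (x y : ℕ) (l : List ℕ) (o : ℕ) (h : o < l.length) :
    (preList x y l)[o]? = some (x + (l.take o).count 0, y + (l.take o).count 1) := by
  induction l generalizing x y o with
  | nil => simp at h
  | cons c l ih =>
    cases o with
    | zero => simp [preList]
    | succ o =>
      simp only [List.length_cons, Nat.add_lt_add_iff_right] at h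
      rw [preList, List.getElem?_cons_succ, ih _ _ _ h, List.take_succ_cons, List.count_cons,
        List.count_cons]
      congr 2
      · cases hc : Nat.beq c 0 with
        | true =>
          have : c = 0 := Nat.eq_of_beq_eq_true hc
          subst this
          simp; ring
        | false =>
          have : c ≠ 0 := fun e => by subst e; simp at hc
          simp [this]
      · cases hc : Nat.beq c 1 with
        | true =>
          have : c = 1 := Nat.eq_of_beq_eq_true hc
          subst this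
          simp; ring
        | false =>
          have : c ≠ 1 := fun e => by subst e; simp at hc
          simp [this]

theorem count_take (l : List ℕ) (c o : ℕ) (h : o ≤ l.length) :
    (∑ j ∈ Finset.range o, if l.getD j 0 = c then 1 else 0) = (l.take o).count c := by
  induction o with
  | zero => simp
  | succ o ih =>
    rw [Finset.sum_range_succ, ih (by omega), List.take_add_one, List.count_append]
    have : l[o]? = some (l.getD o 0) := by
      rw [List.getD_eq_getElem?_getD, List.getElem?_eq_getElem (by omega)]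
      simp
    rw [this]
    simp [List.count_cons, List.count_nil]

/-- validity of the data -/
structure Img.Valid (D : Img) : Prop where
  Lpos : 0 < D.L
  Kpos : 0 < D.K
  LB : 2 * D.L ≤ D.B
  LOFF : 2 * D.L ≤ D.OFF
  len : ∀ i < 12, (D.word (lt i)).length = D.L
  zero0 : D.o0 0 = 0
  zero1 : D.o1 0 = 0
  adj0 : ∀ x ∈ adjL, 6 * ((D.word (lt x.1)).count 0 : ℤ) =
    D.a01 + D.a02 * d2 x.1 + D.a03 * d3 x.1 + D.o0 x.2 - D.o0 x.1
  adj1 : ∀ x ∈ adjL, 6 * ((D.word (lt x.1)).count 1 : ℤ) =
    D.a11 + D.a12 * d2 x.1 + D.a13 * d3 x.1 + D.o1 x.2 - D.o1 x.1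

theorem Img.cnt_add (D : Img) (hD : D.Valid) (c n o : ℕ) (ho : o ≤ D.L) :
    D.cnt c (D.L * n + o) = D.cnt c (D.L * n) + ((D.word (lt (rr n))).take o).count c := by
  unfold Img.cnt
  rw [Finset.sum_range_add, ← count_take _ _ _ (by rw [hD.len _ (rr_lt n)]; exact ho)]
  congr 1
  refine Finset.sum_congr rfl fun j hj => ?_
  have hj' : j < D.L := lt_of_lt_of_le (Finset.mem_range.mp hj) ho
  have : D.xs (D.L * n + j) = (D.word (lt (rr n))).getD j 0 := by
    unfold Img.xs
    rw [Nat.mul_add_div hD.Lpos, Nat.div_eq_of_lt hj', Nat.add_zero, Nat.mul_add_mod,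
      Nat.mod_eq_of_lt hj']
  rw [this]

theorem Img.cnt_base (D : Img) (hD : D.Valid) (n : ℕ) :
    6 * (D.cnt 0 (D.L * n) : ℤ) = D.a01 * n + D.a02 * (Qp n).1 + D.a03 * (Qp n).2 + D.o0 (rr n) ∧
    6 * (D.cnt 1 (D.L * n) : ℤ) = D.a11 * n + D.a12 * (Qp n).1 + D.a13 * (Qp n).2 + D.o1 (rr n) := by
  induction n with
  | zero => simp [Qp_zero, rr_zero, Img.cnt, hD.zero0, hD.zero1]
  | succ n ih =>
    obtain ⟨h1, h2, h3⟩ := adj_all n
    have k0 := D.cnt_add hD 0 n D.L le_rfl
    have k1 := D.cnt_add hD 1 n D.L le_rfl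
    have e : D.L * (n + 1) = D.L * n + D.L := by ring
    have t : (D.word (lt (rr n))).take D.L = D.word (lt (rr n)) := by
      rw [List.take_of_length_le]; rw [hD.len _ (rr_lt n)]
    rw [t] at k0 k1
    have a0 := hD.adj0 _ h1
    have a1 := hD.adj1 _ h1
    simp only at a0 a1
    rw [e, k0, k1, h2, h3]
    push_cast
    constructor
    · linarith [ih.1]
    · linarith [ih.2]

end Pool.Agent.Work.MP_cabd9e_co
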