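import Pool.Agent.Work.MP_cabd9e_co.Main

/-!
# MP_cabd9e_co: avoidance of long abelian squares by the image word
-/

set_option autoImplicit false

namespace Pool.Agent.Work.MP_cabd9e_co

/-- the image word with letters in `Fin 3` -/
def Img.word3 (D : Img) (n : ℕ) : Fin 3 := ⟨D.xs n % 3, Nat.mod_lt _ (by norm_num)⟩

theorem Img.cnt_split (D : Img) (c i p : ℕ) :
    D.cnt c (i + p) = D.cnt c i + ∑ j ∈ Finset.range p, if D.xs (i + j) = c then 1 else 0 := by
  unfold Img.cnt
  rw [Finset.sum_range_add]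

theorem Img.card_eq (D : Img) (h3 : ∀ n, D.xs n < 3) (a : Fin 3) (i p : ℕ) :
    ((Finset.range p).filter (fun j => D.word3 (i + j) = a)).card =
      ∑ j ∈ Finset.range p, if D.xs (i + j) = (a : ℕ) then 1 else 0 := by
  rw [Finset.card_filter]
  refine Finset.sum_congr rfl fun j _ => ?_
  have : (D.word3 (i + j) = a) ↔ D.xs (i + j) = (a : ℕ) := by
    rw [Fin.ext_iff]
    show D.xs (i + j) % 3 = (a : ℕ) ↔ _
    rw [Nat.mod_eq_of_lt (h3 _)]
  by_cases h : D.xs (i + j) = (a : ℕ)
  · rw [if_pos h, if_pos (this.mpr h)]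
  · rw [if_neg h, if_neg (fun hh => h (this.mp hh))]

theorem Img.xs_lt (D : Img) (h : ∀ i < 12, ∀ c ∈ D.word (lt i), c < 3) (n : ℕ) : D.xs n < 3 := by
  unfold Img.xs
  rw [List.getD_eq_getElem?_getD]
  cases hb : (D.word (lt (rr (n / D.L))))[n % D.L]? with
  | none => simp
  | some v =>
    rw [Option.getD_some]
    exact h _ (rr_lt _) v (List.mem_of_getElem? hb)

/-- A valid map whose checks succeed gives a ternary word without abelian squares of period
at least `D.K`. -/
theorem Img.avoid (D : Img) (hD : D.Valid) (hR : D.Ranges)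
    (hl : ∀ i < 12, ∀ c ∈ D.word (lt i), c < 3)
    (h2 : ∀ α < 6, ∀ β < 6, D.level2 α β = true)
    (h01 : ∀ g < 2, ∀ i < 12, D.level01 g i = true) (i p : ℕ) (hp : D.K ≤ p) :
    ∃ a : Fin 3, ((Finset.range p).filter (fun j => D.word3 (i + j) = a)).card ≠
      ((Finset.range p).filter (fun j => D.word3 (i + p + j) = a)).card := by
  by_contra hcon
  push Not at hcon
  have h3 := D.xs_lt hl
  have key : ∀ c : Fin 3, (D.cnt c (i + 2 * p) : ℤ) - 2 * D.cnt c (i + p) + D.cnt c i = 0 := by
    intro c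
    have h := hcon c
    rw [D.card_eq h3, D.card_eq h3] at h
    have e1 := D.cnt_split c i p
    have e2 := D.cnt_split c (i + p) p
    rw [show i + p + p = i + 2 * p by ring] at e2
    rw [e2, e1, h]
    push_cast
    ring
  exact D.core hD hR h2 h01 i p hp (key 0) (key 1)

end Pool.Agent.Work.MP_cabd9e_co
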