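import Pool.Agent.Work.MP_cabd9e_co.Closure

/-!
# MP_cabd9e_co: kernel evaluation of the closure checker, part 0
-/

set_option autoImplicit false
set_option maxRecDepth 100000

namespace Pool.Agent.Work.MP_cabd9e_co

theorem c01_0 : check01 0 = true := by decide +kernel

theorem c01_1 : check01 1 = true := by decide +kernel
theorem c2_0 : check2 (rowsT.getD 0 (0, [])) = true := by decide +kernel

theorem c2_1 : check2 (rowsT.getD 1 (0, [])) = true := by decide +kernel

theorem c2_2 : check2 (rowsT.getD 2 (0, [])) = true := by decide +kernel

end Pool.Agent.Work.MP_cabd9e_co
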