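import Pool.Agent.Work.MP_cabd9e_co.Closure

/-!
# MP_cabd9e_co: kernel evaluation of the closure checker, part 2
-/

set_option autoImplicit false
set_option maxRecDepth 100000

namespace Pool.Agent.Work.MP_cabd9e_co


theorem c2_6 : check2 (rowsT.getD 6 (0, [])) = true := by decide +kernel

theorem c2_7 : check2 (rowsT.getD 7 (0, [])) = true := by decide +kernel

theorem c2_8 : check2 (rowsT.getD 8 (0, [])) = true := by decide +kernel

end Pool.Agent.Work.MP_cabd9e_co
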