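import Pool.Agent.Work.MP_cabd9e_co.Data

/-!
# MP_cabd9e_co: the refined letters and the position vectors; the checker for the closure
-/

set_option autoImplicit false

namespace Pool.Agent.Work.MP_cabd9e_co

/-- next refined letter -/
def tr (i o : ℕ) : ℕ := (trT.getD i []).getD o 0

def lq2 (i o : ℕ) : ℤ := (lq2T.getD i []).getD o 0

def lq3 (i o : ℕ) : ℤ := (lq3T.getD i []).getD o 0

/-- the refined letter at position `n` -/
def rr (n : ℕ) : ℕ := if h : n = 0 then 0 else tr (rr (n / 3)) (n % 3)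
termination_by n
decreasing_by exact Nat.div_lt_self (Nat.pos_of_ne_zero h) (by norm_num)

/-- the second and third coordinate of the position vector at `n` (the first is `n`) -/
def Qp (n : ℕ) : ℤ × ℤ :=
  if h : n = 0 then (0, 0)
  else (3 * (Qp (n / 3)).2 + lq2 (rr (n / 3)) (n % 3), (Qp (n / 3)).1 + lq3 (rr (n / 3)) (n % 3))
termination_by n
decreasing_by all_goals exact Nat.div_lt_self (Nat.pos_of_ne_zero h) (by norm_num)

theorem rr_zero : rr 0 = 0 := by rw [rr]; simp

theorem Qp_zero : Qp 0 = (0, 0) := by rw [Qp]; simp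

theorem rr_rec (n : ℕ) : rr n = tr (rr (n / 3)) (n % 3) := by
  rcases Nat.eq_zero_or_pos n with h | h
  · subst h; simp [rr_zero]; decide
  · conv_lhs => rw [rr]
    simp [Nat.pos_iff_ne_zero.mp h]

theorem Qp_rec (n : ℕ) : Qp n = (3 * (Qp (n / 3)).2 + lq2 (rr (n / 3)) (n % 3),
    (Qp (n / 3)).1 + lq3 (rr (n / 3)) (n % 3)) := by
  rcases Nat.eq_zero_or_pos n with h | h
  · subst h; simp [rr_zero, Qp_zero]; decide
  · conv_lhs => rw [Qp]
    simp [Nat.pos_iff_ne_zero.mp h]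

theorem tr_lt : ∀ i < 12, ∀ o < 3, tr i o < 12 := by decide

theorem rr_lt (n : ℕ) : rr n < 12 := by
  induction n using Nat.strong_induction_on with
  | _ n ih =>
    rcases Nat.eq_zero_or_pos n with h | h
    · subst h; simp [rr_zero]
    · rw [rr_rec]
      exact tr_lt _ (ih _ (Nat.div_lt_self h (by norm_num))) _ (Nat.mod_lt _ (by norm_num))

/-! ### the checker -/

/-- lookup -/
def lk (g i j k : ℕ) : ℕ := (((dat.getD g []).getD i []).getD j []).getD k 3

def dec : ℕ → ℕ → List ℕ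
  | 0, _ => []
  | f + 1, n => cond (Nat.beq n 0) [] (Nat.sub (Nat.mod n 1024) 1 :: dec f (Nat.div n 1024))

def posS (c : ℕ) : ℕ :=
  Nat.add (Nat.mul (Nat.add (Nat.div c 21) 28) 45) (Nat.add (Nat.mod c 21) 712)

def posE (c : ℕ) : ℕ :=
  Nat.add (Nat.mul (Nat.add (Nat.mul 3 (Nat.mod c 21)) 14) 45) (Nat.add (Nat.div c 21) 6)

def mkS : List ℕ → ℕ
  | [] => 0
  | c :: l => Nat.lor (Nat.shiftLeft 1 (posS c)) (mkS l)

def mkE : List ℕ → ℕ
  | [] => 0
  | c :: l => Nat.lor (Nat.shiftLeft 1 (posE c)) (mkE l)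

/-- all positions of the box -/
def mask : ℕ := mkS (List.range 693)

/-- the inclusion test for one choice of offsets; `g'` is the gap class of the child -/
def stepOk (g' s E msk : ℕ) (a b c : ℕ × ℕ × ℕ × ℕ) : Bool :=
  match a, b, c with
  | (o1, t1, _, i'), (o2, _, t2, j'), (o3, t3, _, k') =>
    cond (Nat.blt (Nat.add (Nat.mul 3 s) (Nat.add o1 o3)) (Nat.add (Nat.mul 2 o2) 2)) true
    (cond (Nat.blt (Nat.add (Nat.mul 2 o2) 4) (Nat.add (Nat.mul 3 s) (Nat.add o1 o3))) true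
    (Nat.beq
      (Nat.land (Nat.land (Nat.shiftLeft E (Nat.add t1 (Nat.add t2 t3))) msk)
        (cond (Nat.beq (Nat.add (Nat.mod (lk g' i' j' k') 4) (Nat.add (Nat.mul 2 o2) 2))
            (Nat.add (Nat.mul 3 s) (Nat.add o1 o3)))
          (mkS (dec 64 (Nat.div (lk g' i' j' k') 4))) 0))
      (Nat.land (Nat.shiftLeft E (Nat.add t1 (Nat.add t2 t3))) msk)))

/-- the test for one triple with gap class `≥ 2` -/
def triple2 (msk i j k : ℕ) (ri rj rk : List (ℕ × ℕ × ℕ × ℕ)) : Bool :=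
  cond (Nat.beq (Nat.mod (lk 2 i j k) 4) 3) true
  (ri.all fun a => rj.all fun b => rk.all fun c =>
    stepOk 2 (Nat.mod (lk 2 i j k) 4) (mkE (dec 64 (Nat.div (lk 2 i j k) 4))) msk a b c)

def gapNext (g o1 o2 : ℕ) : ℕ := min 2 (3 * g + o2 - o1)

/-- the test for one triple with gap class `0` or `1` -/
def triple01 (msk g i j k : ℕ) (ri rj rk : List (ℕ × ℕ × ℕ × ℕ)) : Bool :=
  cond (Nat.beq (Nat.mod (lk g i j k) 4) 3) true
  (ri.all fun a => rj.all fun b => rk.all fun c =>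
    (cond (Nat.blt (Nat.add (Nat.mul 3 g) b.1) a.1) true
    (stepOk (gapNext g a.1 b.1) (Nat.mod (lk g i j k) 4)
      (mkE (dec 64 (Nat.div (lk g i j k) 4))) msk a b c)))

def check2 (x : ℕ × List (ℕ × ℕ × ℕ × ℕ)) : Bool :=
  match x with
  | (i, ri) => rowsT.all fun y => match y with
    | (j, rj) => rowsT.all fun z => match z with
      | (k, rk) => triple2 mask i j k ri rj rk

def check01 (g : ℕ) : Bool :=
  rowsT.all fun x => rowsT.all fun y => rowsT.all fun z =>
    triple01 mask g x.1 y.1 z.1 x.2 y.2 z.2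

end Pool.Agent.Work.MP_cabd9e_co
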