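import Pool.Agent.Work.MP_cabd9e_co.Sound
import Pool.Agent.Work.MP_cabd9e_co.Chk0
import Pool.Agent.Work.MP_cabd9e_co.Chk1
import Pool.Agent.Work.MP_cabd9e_co.Chk2
import Pool.Agent.Work.MP_cabd9e_co.Chk3

/-!
# MP_cabd9e_co: every second difference in the box is listed
-/

set_option autoImplicit false

namespace Pool.Agent.Work.MP_cabd9e_co

theorem check2_all (i : ℕ) (hi : i < 12) : check2 (i, row i) = true := by
  interval_cases i
  · exact c2_0
  · exact c2_1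
  · exact c2_2
  · exact c2_3
  · exact c2_4
  · exact c2_5
  · exact c2_6
  · exact c2_7
  · exact c2_8
  · exact c2_9
  · exact c2_10
  · exact c2_11

theorem triple2_all {i j k : ℕ} (hi : i < 12) (hj : j < 12) (hk : k < 12) :
    triple2 mask i j k (row i) (row j) (row k) = true := by
  have h := check2_all i hi
  unfold check2 at h
  simp only at h
  have h1 := List.all_eq_true.mp h _ (mem_rowsT j hj)
  simp only at h1
  have h2 := List.all_eq_true.mp h1 _ (mem_rowsT k hk)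
  exact h2

theorem triple01_all {g i j k : ℕ} (hg : g < 2) (hi : i < 12) (hj : j < 12) (hk : k < 12) :
    triple01 mask g i j k (row i) (row j) (row k) = true := by
  have h : check01 g = true := by
    interval_cases g
    · exact c01_0
    · exact c01_1
  unfold check01 at h
  have h1 := List.all_eq_true.mp h _ (mem_rowsT i hi)
  have h2 := List.all_eq_true.mp h1 _ (mem_rowsT j hj)
  have h3 := List.all_eq_true.mp h2 _ (mem_rowsT k hk)
  exact h3

/-- the step of the induction -/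
theorem step_mem {g i j k o1 o2 o3 : ℕ} (hg : g ≤ 2) (hi : i < 12) (hj : j < 12) (hk : k < 12)
    (ho1 : o1 < 3) (ho2 : o2 < 3) (ho3 : o3 < 3) (ho : o1 ≤ 3 * g + o2)
    {q1 q2 q3 p1 p2 p3 : ℤ} (hm : Mem g i j k q1 q2 q3)
    (hq1 : -1 ≤ q1 ∧ q1 ≤ 1) (hq3 : -10 ≤ q3 ∧ q3 ≤ 10)
    (hp1 : p1 = 3 * q1 + o3 - 2 * o2 + o1)
    (hp2 : p2 = 3 * q3 + lq2 k o3 - 2 * lq2 j o2 + lq2 i o1)
    (hp3 : p3 = q2 + lq3 k o3 - 2 * lq3 j o2 + lq3 i o1)
    (b1 : -1 ≤ p1 ∧ p1 ≤ 1) (b2 : -16 ≤ p2 ∧ p2 ≤ 16) (b3 : -10 ≤ p3 ∧ p3 ≤ 10) :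
    Mem (gapNext g o1 o2) (tr i o1) (tr j o2) (tr k o3) p1 p2 p3 := by
  have hne : Nat.beq (Nat.mod (lk g i j k) 4) 3 = false := by
    rw [Bool.eq_false_iff]
    intro hh
    have h3 : lk g i j k % 4 = 3 := Nat.eq_of_beq_eq_true hh
    have := hm.1
    rw [h3] at this
    push_cast at this
    omega
  rcases Nat.lt_or_ge g 2 with hg2 | hg2
  · have h := triple01_all hg2 hi hj hk
    unfold triple01 at h
    rw [hne, cond_false] at h
    have h1 := List.all_eq_true.mp h _ (mem_row i hi o1 ho1)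
    have h2 := List.all_eq_true.mp h1 _ (mem_row j hj o2 ho2)
    have h3 := List.all_eq_true.mp h2 _ (mem_row k hk o3 ho3)
    have hlt : Nat.blt (Nat.add (Nat.mul 3 g) o2) o1 = false := by
      rw [Bool.eq_false_iff]
      intro hh
      have : 3 * g + o2 < o1 := Nat.blt_eq.mp hh
      omega
    simp only [hlt, cond_false] at h3
    exact child_mem hi hj hk ho1 ho2 ho3 h3 hm hq3 hp1 hp2 hp3 b1 b2 b3
  · have hg' : g = 2 := by omega
    subst hg'
    have h := triple2_all hi hj hk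
    unfold triple2 at h
    rw [hne, cond_false] at h
    have h1 := List.all_eq_true.mp h _ (mem_row i hi o1 ho1)
    have h2 := List.all_eq_true.mp h1 _ (mem_row j hj o2 ho2)
    have h3 := List.all_eq_true.mp h2 _ (mem_row k hk o3 ho3)
    have e : gapNext 2 o1 o2 = 2 := by unfold gapNext; omega
    rw [e]
    exact child_mem hi hj hk ho1 ho2 ho3 h3 hm hq3 hp1 hp2 hp3 b1 b2 b3

theorem base_mem : Mem 0 0 0 0 0 0 0 := by
  refine ⟨by decide, 16 * 21 + 10, by decide, by norm_num⟩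

/-- Every second difference of the position vector which lies in the box is listed. -/
theorem closure_mem (n1 n2 n3 : ℕ) (h12 : n1 ≤ n2)
    (b1 : -1 ≤ (n3 : ℤ) - 2 * n2 + n1 ∧ (n3 : ℤ) - 2 * n2 + n1 ≤ 1)
    (b2 : -16 ≤ (Qp n3).1 - 2 * (Qp n2).1 + (Qp n1).1 ∧
      (Qp n3).1 - 2 * (Qp n2).1 + (Qp n1).1 ≤ 16)
    (b3 : -10 ≤ (Qp n3).2 - 2 * (Qp n2).2 + (Qp n1).2 ∧
      (Qp n3).2 - 2 * (Qp n2).2 + (Qp n1).2 ≤ 10) :
    Mem (min 2 (n2 - n1)) (rr n1) (rr n2) (rr n3) ((n3 : ℤ) - 2 * n2 + n1)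
      ((Qp n3).1 - 2 * (Qp n2).1 + (Qp n1).1) ((Qp n3).2 - 2 * (Qp n2).2 + (Qp n1).2) := by
  induction hs : n1 + n2 + n3 using Nat.strong_induction_on generalizing n1 n2 n3 with
  | _ s ih =>
    rcases Nat.eq_zero_or_pos s with h0 | h0
    · have e1 : n1 = 0 := by omega
      have e2 : n2 = 0 := by omega
      have e3 : n3 = 0 := by omega
      subst e1 e2 e3
      simpa [rr_zero, Qp_zero] using base_mem
    · have r1 := rr_rec n1
      have r2 := rr_rec n2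
      have r3 := rr_rec n3
      have s1 := Qp_rec n1
      have s2 := Qp_rec n2
      have s3 := Qp_rec n3
      have o1 : n1 % 3 < 3 := Nat.mod_lt _ (by norm_num)
      have o2 : n2 % 3 < 3 := Nat.mod_lt _ (by norm_num)
      have o3 : n3 % 3 < 3 := Nat.mod_lt _ (by norm_num)
      have l1 := lin_bd (rr (n1 / 3)) (rr_lt _) _ o1
      have l2 := lin_bd (rr (n2 / 3)) (rr_lt _) _ o2
      have l3 := lin_bd (rr (n3 / 3)) (rr_lt _) _ o3
      rw [s1, s2, s3] at b2 b3 ⊢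
      simp only at b2 b3 ⊢
      have c1 : -1 ≤ ((n3 / 3 : ℕ) : ℤ) - 2 * ((n2 / 3 : ℕ) : ℤ) + ((n1 / 3 : ℕ) : ℤ) ∧
          ((n3 / 3 : ℕ) : ℤ) - 2 * ((n2 / 3 : ℕ) : ℤ) + ((n1 / 3 : ℕ) : ℤ) ≤ 1 := by omega
      have c3 : -10 ≤ (Qp (n3 / 3)).2 - 2 * (Qp (n2 / 3)).2 + (Qp (n1 / 3)).2 ∧
          (Qp (n3 / 3)).2 - 2 * (Qp (n2 / 3)).2 + (Qp (n1 / 3)).2 ≤ 10 := by omega
      have c2 : -16 ≤ (Qp (n3 / 3)).1 - 2 * (Qp (n2 / 3)).1 + (Qp (n1 / 3)).1 ∧
          (Qp (n3 / 3)).1 - 2 * (Qp (n2 / 3)).1 + (Qp (n1 / 3)).1 ≤ 16 := by omega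
      have hm := ih (n1 / 3 + n2 / 3 + n3 / 3) (by omega) (n1 / 3) (n2 / 3) (n3 / 3)
        (Nat.div_le_div_right h12) c1 c2 c3 rfl
      have hgap : min 2 (n2 - n1) = gapNext (min 2 (n2 / 3 - n1 / 3)) (n1 % 3) (n2 % 3) := by
        unfold gapNext; omega
      rw [hgap, r1, r2, r3]
      refine step_mem (by omega) (rr_lt _) (rr_lt _) (rr_lt _) o1 o2 o3 (by omega) hm c1 c3 ?_ ?_ ?_
        b1 ?_ ?_
      · omega
      · ring
      · ring
      · constructor <;> linarith [b2.1, b2.2]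
      · constructor <;> linarith [b3.1, b3.2]

end Pool.Agent.Work.MP_cabd9e_co
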