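import Pool.Agent.Work.MP_cabd9e_co.Level

set_option autoImplicit false

namespace Pool.Agent.Work.MP_cabd9e_co

def img3 : Img where
  L := 120
  K := 3
  B := 240
  OFF := 464
  words := [[2, 2, 1, 2, 2, 0, 1, 1, 2, 1, 1, 1, 0, 1, 1, 2, 0, 2, 2, 1, 1, 1, 2, 2, 2, 2, 2, 0, 2, 2, 2, 2, 2, 1, 2, 0, 1, 0, 0, 0, 0, 0, 2, 2, 0, 1, 0, 0, 1, 1, 0, 2, 1, 2, 2, 0, 0, 2, 0, 2, 1, 1, 1, 1, 1, 0, 1, 1, 2, 0, 2, 0, 0, 0, 0, 1, 1, 1, 2, 1, 1, 1, 1, 1, 0, 1, 1, 1, 1, 1, 2, 2, 2, 1, 1, 1, 0, 0, 1, 0, 1, 1, 1, 1, 1, 2, 1, 1, 0, 0, 0, 0, 0, 2, 2, 1, 1, 1, 0, 2],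
    [2, 2, 2, 1, 1, 1, 2, 2, 2, 0, 1, 1, 1, 1, 1, 0, 0, 2, 2, 2, 2, 2, 1, 1, 2, 1, 2, 2, 2, 2, 0, 2, 0, 0, 2, 1, 2, 2, 2, 0, 0, 0, 0, 0, 1, 1, 1, 2, 1, 2, 2, 2, 0, 0, 1, 1, 0, 2, 2, 2, 2, 2, 1, 0, 0, 2, 2, 2, 2, 2, 0, 0, 0, 0, 0, 1, 0, 0, 0, 0, 2, 2, 2, 2, 2, 1, 2, 1, 1, 2, 2, 2, 2, 0, 0, 0, 2, 1, 1, 2, 2, 2, 2, 2, 0, 2, 2, 2, 2, 2, 1, 2, 2, 2, 2, 2, 0, 0, 2, 0],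
    [2, 2, 2, 2, 1, 1, 0, 0, 0, 0, 2, 0, 2, 2, 0, 0, 1, 0, 2, 2, 0, 0, 0, 0, 0, 1, 0, 0, 0, 0, 0, 2, 0, 0, 0, 0, 0, 1, 1, 1, 1, 1, 0, 0, 2, 2, 2, 2, 2, 0, 1, 0, 0, 1, 2, 1, 2, 2, 2, 2, 2, 0, 2, 2, 2, 2, 1, 0, 0, 2, 2, 0, 2, 0, 0, 0, 0, 1, 0, 0, 0, 0, 0, 2, 0, 2, 2, 2, 2, 2, 1, 2, 1, 1, 2, 2, 0, 1, 1, 2, 2, 2, 2, 2, 0, 2, 2, 2, 2, 2, 1, 2, 2, 2, 2, 2, 0, 0, 0, 2],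
    [2, 2, 2, 2, 1, 1, 0, 0, 0, 0, 2, 0, 2, 2, 0, 0, 1, 0, 2, 2, 0, 0, 0, 0, 0, 1, 0, 0, 0, 0, 0, 2, 0, 0, 0, 0, 0, 1, 1, 1, 1, 2, 2, 0, 1, 0, 2, 0, 0, 2, 2, 2, 0, 1, 1, 1, 2, 2, 2, 2, 2, 0, 2, 2, 1, 0, 2, 0, 2, 2, 0, 0, 0, 0, 0, 1, 0, 0, 0, 0, 0, 2, 0, 0, 0, 0, 0, 1, 1, 1, 1, 2, 0, 2, 0, 0, 2, 2, 1, 2, 1, 1, 1, 1, 1, 0, 1, 0, 2, 1, 0, 0, 1, 1, 0, 1, 2, 2, 2, 0],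
    [2, 1, 1, 1, 0, 2, 2, 2, 2, 2, 1, 1, 1, 1, 1, 2, 0, 0, 2, 2, 2, 2, 1, 1, 1, 2, 2, 2, 2, 2, 0, 1, 2, 2, 2, 0, 0, 0, 0, 1, 2, 2, 1, 1, 0, 0, 0, 2, 2, 2, 2, 1, 2, 1, 1, 2, 2, 2, 2, 2, 0, 2, 2, 2, 2, 2, 1, 2, 2, 2, 0, 0, 2, 1, 2, 0, 2, 2, 2, 2, 2, 1, 1, 1, 1, 0, 1, 1, 1, 1, 1, 2, 1, 1, 0, 0, 2, 1, 2, 2, 1, 1, 1, 1, 1, 0, 1, 1, 2, 1, 1, 0, 0, 0, 1, 2, 0, 0, 0, 2],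
    [2, 2, 2, 2, 1, 1, 0, 0, 0, 0, 0, 2, 2, 2, 0, 0, 1, 0, 2, 2, 0, 0, 0, 0, 0, 1, 0, 0, 0, 0, 0, 2, 0, 0, 0, 0, 0, 1, 1, 1, 1, 1, 0, 0, 0, 2, 0, 2, 1, 2, 0, 2, 2, 2, 2, 1, 1, 1, 1, 0, 0, 1, 0, 1, 1, 1, 2, 1, 2, 0, 0, 0, 0, 0, 1, 1, 1, 1, 1, 0, 0, 2, 1, 1, 1, 0, 1, 1, 1, 1, 1, 2, 1, 1, 1, 1, 1, 0, 0, 2, 2, 2, 1, 1, 1, 1, 0, 2, 1, 1, 1, 0, 0, 0, 1, 2, 0, 0, 0, 2]]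
  a01 := 240
  a02 := 34
  a03 := -96
  a11 := 213
  a12 := 87
  a13 := -111
  off0 := [0, -14, 0, -14, 0, 0, -14, -14, -14, -14, -14, -14]
  off1 := [0, 30, 0, 30, 0, 0, 30, 30, 30, 30, 30, 30]
  mn2 := [0, -1330560, 0, -800496, 0, -120240, -1330560, -1637856, -800496, -1330560, -1637856, -800496]
  mx2 := [1828656, 707472, 2002752, 904032, 2002752, 706320, 707472, 707472, 904032, 707472, 707472, 904032]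
  mn3 := [0, -860370, 0, -569634, 0, 0, -860370, -1083654, -569634, -860370, -1083654, -569634]
  mx3 := [956664, 399348, 1327338, 399348, 1327338, 490500, 399348, 399348, 399348, 399348, 399348, 399348]

end Pool.Agent.Work.MP_cabd9e_co
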