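import Pool.Agent.Work.MP_cabd9e_co.Img3L0

/-!
# MP_cabd9e_co: kernel evaluation of the level checker (`img3`), part Img3L1
-/

set_option autoImplicit false
set_option maxRecDepth 1000000

namespace Pool.Agent.Work.MP_cabd9e_co

theorem img3_l2_0_3 : img3.level2 0 3 = true := by decide +kernel

theorem img3_l2_0_4 : img3.level2 0 4 = true := by decide +kernel

theorem img3_l2_0_5 : img3.level2 0 5 = true := by decide +kernel

end Pool.Agent.Work.MP_cabd9e_co
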