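import Pool.Agent.Work.MP_cabd9e_co.Level

set_option autoImplicit false

namespace Pool.Agent.Work.MP_cabd9e_co

def img4 : Img where
  L := 32
  K := 4
  B := 64
  OFF := 292
  words := [[1, 0, 1, 1, 1, 1, 2, 1, 1, 1, 1, 1, 1, 0, 0, 0, 0, 2, 2, 1, 2, 1, 1, 1, 2, 1, 0, 2, 2, 2, 0, 0],
    [0, 1, 1, 0, 0, 0, 2, 2, 0, 2, 1, 0, 0, 0, 0, 0, 2, 0, 0, 2, 2, 2, 2, 2, 2, 2, 1, 2, 2, 2, 2, 0],
    [0, 0, 1, 1, 2, 2, 2, 2, 2, 2, 2, 0, 2, 2, 2, 2, 2, 2, 2, 1, 2, 2, 2, 2, 2, 0, 1, 1, 2, 2, 1, 0],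
    [0, 2, 2, 1, 1, 1, 0, 2, 0, 0, 1, 0, 0, 0, 0, 2, 2, 2, 0, 0, 0, 0, 0, 0, 0, 2, 1, 0, 0, 0, 0, 0],
    [0, 1, 0, 2, 1, 1, 1, 1, 1, 2, 2, 2, 2, 2, 2, 2, 1, 1, 0, 1, 2, 1, 2, 2, 2, 2, 1, 1, 1, 1, 1, 1],
    [0, 0, 1, 1, 0, 1, 2, 0, 0, 0, 0, 0, 2, 2, 2, 1, 0, 0, 0, 0, 1, 0, 1, 1, 1, 1, 1, 1, 1, 2, 2, 0]]
  a01 := 63
  a02 := 39
  a03 := -91
  a11 := 59
  a12 := 19
  a13 := -9
  off0 := [0, -2, -48, -2, -20, -28, 26, 26, 18, 18, -2, -10]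
  off1 := [0, 8, 14, 8, 2, 12, -4, -4, 6, 6, 8, 18]
  mn2 := [0, -55476, 48062, -23016, 5054, -56702, -98484, -113470, -34600, -67060, -70462, 8408]
  mx2 := [146060, 36152, 162626, 71814, 119618, 61818, -6856, 2740, 60230, 24568, 45748, 103238]
  mn3 := [0, -9632, 41904, -24704, 9904, -18016, -41632, -86896, -39360, -24288, -54896, -7360]
  mx3 := [72864, 14464, 113808, 21616, 81808, 40016, -17536, -8608, 6960, -192, 23392, 38960]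

end Pool.Agent.Work.MP_cabd9e_co
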