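import Pool.Agent.Work.MP_cabd9e_co.Img4

/-!
# MP_cabd9e_co: kernel evaluation of the level checker (`img4`), part Img4L2
-/

set_option autoImplicit false
set_option maxRecDepth 1000000

namespace Pool.Agent.Work.MP_cabd9e_co

theorem img4_l2_4_0 : img4.level2 4 0 = true := by decide +kernel

theorem img4_l2_4_1 : img4.level2 4 1 = true := by decide +kernel

theorem img4_l2_4_2 : img4.level2 4 2 = true := by decide +kernel

theorem img4_l2_4_3 : img4.level2 4 3 = true := by decide +kernel

theorem img4_l2_4_4 : img4.level2 4 4 = true := by decide +kernel

theorem img4_l2_4_5 : img4.level2 4 5 = true := by decide +kernel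

theorem img4_l2_5_0 : img4.level2 5 0 = true := by decide +kernel

theorem img4_l2_5_1 : img4.level2 5 1 = true := by decide +kernel

theorem img4_l2_5_2 : img4.level2 5 2 = true := by decide +kernel

theorem img4_l2_5_3 : img4.level2 5 3 = true := by decide +kernel

theorem img4_l2_5_4 : img4.level2 5 4 = true := by decide +kernel

theorem img4_l2_5_5 : img4.level2 5 5 = true := by decide +kernel

end Pool.Agent.Work.MP_cabd9e_co
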