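import Pool.Agent.Work.MP_cabd9e_co.Img4

/-!
# MP_cabd9e_co: kernel evaluation of the level checker (`img4`), part Img4M0
-/

set_option autoImplicit false
set_option maxRecDepth 1000000

namespace Pool.Agent.Work.MP_cabd9e_co

theorem img4_l01_0_0 : img4.level01 0 0 = true := by decide +kernel

theorem img4_l01_0_1 : img4.level01 0 1 = true := by decide +kernel

theorem img4_l01_0_2 : img4.level01 0 2 = true := by decide +kernel

theorem img4_l01_0_3 : img4.level01 0 3 = true := by decide +kernel

theorem img4_l01_0_4 : img4.level01 0 4 = true := by decide +kernel

theorem img4_l01_0_5 : img4.level01 0 5 = true := by decide +kernel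

theorem img4_l01_0_6 : img4.level01 0 6 = true := by decide +kernel

theorem img4_l01_0_7 : img4.level01 0 7 = true := by decide +kernel

theorem img4_l01_0_8 : img4.level01 0 8 = true := by decide +kernel

theorem img4_l01_0_9 : img4.level01 0 9 = true := by decide +kernel

theorem img4_l01_0_10 : img4.level01 0 10 = true := by decide +kernel

theorem img4_l01_0_11 : img4.level01 0 11 = true := by decide +kernel

theorem img4_l01_1_0 : img4.level01 1 0 = true := by decide +kernel

theorem img4_l01_1_1 : img4.level01 1 1 = true := by decide +kernel

theorem img4_l01_1_2 : img4.level01 1 2 = true := by decide +kernel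

theorem img4_l01_1_3 : img4.level01 1 3 = true := by decide +kernel

theorem img4_l01_1_4 : img4.level01 1 4 = true := by decide +kernel

theorem img4_l01_1_5 : img4.level01 1 5 = true := by decide +kernel

theorem img4_l01_1_6 : img4.level01 1 6 = true := by decide +kernel

theorem img4_l01_1_7 : img4.level01 1 7 = true := by decide +kernel

theorem img4_l01_1_8 : img4.level01 1 8 = true := by decide +kernel

theorem img4_l01_1_9 : img4.level01 1 9 = true := by decide +kernel

theorem img4_l01_1_10 : img4.level01 1 10 = true := by decide +kernel

theorem img4_l01_1_11 : img4.level01 1 11 = true := by decide +kernel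

end Pool.Agent.Work.MP_cabd9e_co
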