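import Pool.Agent.Work.MP_cabd9e_co.Avoid
import Pool.Agent.Work.MP_cabd9e_co.Img4L0
import Pool.Agent.Work.MP_cabd9e_co.Img4L1
import Pool.Agent.Work.MP_cabd9e_co.Img4L2
import Pool.Agent.Work.MP_cabd9e_co.Img4M0

/-!
# MP_cabd9e_co: the word given by `img4`
-/

set_option autoImplicit false
set_option maxRecDepth 1000000

namespace Pool.Agent.Work.MP_cabd9e_co

theorem img4_valid : img4.Valid where
  Lpos := by decide +kernel
  Kpos := by decide +kernel
  LB := by decide +kernel
  LOFF := by decide +kernel
  len := by decide +kernel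
  zero0 := by decide +kernel
  zero1 := by decide +kernel
  adj0 := by decide +kernel
  adj1 := by decide +kernel

theorem img4_ranges : img4.Ranges where
  detpos := by decide +kernel
  range := by decide +kernel
  b2 := by decide +kernel
  b3 := by decide +kernel

theorem img4_letters : ∀ i < 12, ∀ c ∈ img4.word (lt i), c < 3 := by decide +kernel

theorem img4_level2 : ∀ α < 6, ∀ β < 6, img4.level2 α β = true := by
  intro α hα β hβ
  interval_cases α <;> interval_cases β
  · exact img4_l2_0_0
  · exact img4_l2_0_1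
  · exact img4_l2_0_2
  · exact img4_l2_0_3
  · exact img4_l2_0_4
  · exact img4_l2_0_5
  · exact img4_l2_1_0
  · exact img4_l2_1_1
  · exact img4_l2_1_2
  · exact img4_l2_1_3
  · exact img4_l2_1_4
  · exact img4_l2_1_5
  · exact img4_l2_2_0
  · exact img4_l2_2_1
  · exact img4_l2_2_2
  · exact img4_l2_2_3
  · exact img4_l2_2_4
  · exact img4_l2_2_5
  · exact img4_l2_3_0
  · exact img4_l2_3_1
  · exact img4_l2_3_2
  · exact img4_l2_3_3
  · exact img4_l2_3_4
  · exact img4_l2_3_5
  · exact img4_l2_4_0
  · exact img4_l2_4_1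
  · exact img4_l2_4_2
  · exact img4_l2_4_3
  · exact img4_l2_4_4
  · exact img4_l2_4_5
  · exact img4_l2_5_0
  · exact img4_l2_5_1
  · exact img4_l2_5_2
  · exact img4_l2_5_3
  · exact img4_l2_5_4
  · exact img4_l2_5_5

theorem img4_level01 : ∀ g < 2, ∀ i < 12, img4.level01 g i = true := by
  intro g hg i hi
  interval_cases g <;> interval_cases i
  · exact img4_l01_0_0
  · exact img4_l01_0_1
  · exact img4_l01_0_2
  · exact img4_l01_0_3
  · exact img4_l01_0_4
  · exact img4_l01_0_5
  · exact img4_l01_0_6
  · exact img4_l01_0_7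
  · exact img4_l01_0_8
  · exact img4_l01_0_9
  · exact img4_l01_0_10
  · exact img4_l01_0_11
  · exact img4_l01_1_0
  · exact img4_l01_1_1
  · exact img4_l01_1_2
  · exact img4_l01_1_3
  · exact img4_l01_1_4
  · exact img4_l01_1_5
  · exact img4_l01_1_6
  · exact img4_l01_1_7
  · exact img4_l01_1_8
  · exact img4_l01_1_9
  · exact img4_l01_1_10
  · exact img4_l01_1_11

theorem img4_avoid (i p : ℕ) (hp : img4.K ≤ p) :
    ∃ a : Fin 3, ((Finset.range p).filter (fun j => img4.word3 (i + j) = a)).card ≠
      ((Finset.range p).filter (fun j => img4.word3 (i + p + j) = a)).card :=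
  img4.avoid img4_valid img4_ranges img4_letters img4_level2 img4_level01 i p hp

end Pool.Agent.Work.MP_cabd9e_co
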