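import Pool.Agent.Work.MP_cabd9e_co.Closure

/-!
# MP_cabd9e_co: the checker for the ternary image of the fixed point
-/

set_option autoImplicit false

namespace Pool.Agent.Work.MP_cabd9e_co

/-- unrefined letter of a refined letter -/
def lt (i : ℕ) : ℕ := letT.getD i 0

/-- The data of a uniform map from the six letters to ternary words of length `L`, with the affine
relation between the counting functions of the image and the position vectors. -/
structure Img where
  L : ℕ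
  K : ℕ
  B : ℕ
  OFF : ℕ
  words : List (List ℕ)
  a01 : ℤ
  a02 : ℤ
  a03 : ℤ
  a11 : ℤ
  a12 : ℤ
  a13 : ℤ
  off0 : List ℤ
  off1 : List ℤ
  mn2 : List ℤ
  mx2 : List ℤ
  mn3 : List ℤ
  mx3 : List ℤ

/-- prefix counts of the letters `0` and `1`, starting from `(x, y)`; one entry per letter -/
def preList : ℕ → ℕ → List ℕ → List (ℕ × ℕ)
  | _, _, [] => []
  | x, y, c :: l => (x, y) :: preList (cond (Nat.beq c 0) (Nat.succ x) x)
      (cond (Nat.beq c 1) (Nat.succ y) y) l

def Img.word (D : Img) (a : ℕ) : List ℕ := D.words.getD a []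

def Img.pre (D : Img) (a : ℕ) : List (ℕ × ℕ) := preList 0 0 (D.word a)

def zipLor : List ℕ → List ℕ → List ℕ
  | [], l => l
  | a :: l, [] => a :: l
  | a :: l, b :: l' => Nat.lor a b :: zipLor l l'

/-- the set of codes of the prefix counts, one entry per prefix -/
def codes (B : ℕ) : List (ℕ × ℕ) → List ℕ
  | [] => []
  | p :: l => Nat.shiftLeft 1 (Nat.add (Nat.mul p.1 B) p.2) :: codes B l

def shl (n : ℕ) : List ℕ → List ℕ
  | [] => []
  | t :: l => Nat.shiftLeft t n :: shl n l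

/-- sums of prefix counts: the `c`-th entry is the set of codes of sums of a prefix of length `o₁`
and one of length `o₃` with `o₁ + o₃ = c`. -/
def conv (B : ℕ) : List (ℕ × ℕ) → List ℕ → List ℕ
  | [], _ => []
  | p :: l, S => zipLor (shl (Nat.add (Nat.mul p.1 B) p.2) S) (0 :: conv B l S)

/-- test at one point -/
def tst (B OFF va vb t : ℕ) (p : ℕ × ℕ) : Bool :=
  cond (Nat.ble va (Nat.add (Nat.mul 2 p.1) OFF))
    (cond (Nat.ble vb (Nat.add (Nat.mul 2 p.2) OFF))
      (cond (Nat.blt (Nat.sub (Nat.add (Nat.mul 2 p.1) OFF) va) B)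
        (cond (Nat.blt (Nat.sub (Nat.add (Nat.mul 2 p.2) OFF) vb) B)
          (Nat.beq (Nat.land 1 (Nat.shiftRight t (Nat.add
            (Nat.mul (Nat.sub (Nat.add (Nat.mul 2 p.1) OFF) va) B)
            (Nat.sub (Nat.add (Nat.mul 2 p.2) OFF) vb)))) 0)
          true) true) true) true

def walk (B OFF va vb : ℕ) : List (ℕ × ℕ) → List ℕ → Bool
  | [], _ => true
  | p :: U, T => match T with
    | [] => true
    | t :: T' => cond (tst B OFF va vb t p) (walk B OFF va vb U T'.tail) false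

def val6 (cst ap am bp bm c : ℕ) : ℕ :=
  Nat.sub (Nat.add cst (Nat.add (Nat.mul ap (Nat.div c 21)) (Nat.mul bp (Nat.mod c 21))))
    (Nat.add (Nat.mul am (Nat.div c 21)) (Nat.mul bm (Nat.mod c 21)))

/-- starting indices for the sums and for the middle prefix, by `s = q₁ + 1` -/
def startT (L s : ℕ) : ℕ := match s with
  | 0 => L
  | 1 => 0
  | _ => L % 2

def startU (L s : ℕ) : ℕ := match s with
  | 0 => 0
  | 1 => 0
  | _ => (L + 1) / 2

def Img.o0 (D : Img) (i : ℕ) : ℤ := D.off0.getD i 0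
def Img.o1 (D : Img) (i : ℕ) : ℤ := D.off1.getD i 0
def Img.det (D : Img) : ℤ := D.L * (D.a02 * D.a13 - D.a03 * D.a12)

/-- `6 (v₀ + OFF)` at `q₂ = -16`, `q₃ = -10` -/
def Img.C0 (D : Img) (s i j k : ℕ) : ℤ :=
  D.a01 * ((s : ℤ) - 1) + D.o0 i - 2 * D.o0 j + D.o0 k - 16 * D.a02 - 10 * D.a03 + 6 * D.OFF

def Img.C1 (D : Img) (s i j k : ℕ) : ℤ :=
  D.a11 * ((s : ℤ) - 1) + D.o1 i - 2 * D.o1 j + D.o1 k - 16 * D.a12 - 10 * D.a13 + 6 * D.OFF

/-- the range of `q₂ + 16` -/
def Img.uhi (D : Img) (i j k : ℕ) : ℕ :=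
  ((2 * D.mx2.getD j 0 - D.mn2.getD i 0 - D.mn2.getD k 0) / D.det + 16 + 1).toNat
def Img.ulo (D : Img) (i j k : ℕ) : ℕ :=
  ((2 * D.mn2.getD j 0 - D.mx2.getD i 0 - D.mx2.getD k 0) / D.det + 16).toNat
def Img.vhi (D : Img) (i j k : ℕ) : ℕ :=
  ((2 * D.mx3.getD j 0 - D.mn3.getD i 0 - D.mn3.getD k 0) / D.det + 10 + 1).toNat
def Img.vlo (D : Img) (i j k : ℕ) : ℕ :=
  ((2 * D.mn3.getD j 0 - D.mx3.getD i 0 - D.mx3.getD k 0) / D.det + 10).toNat

/-- test of one second difference for gap class `≥ 2` -/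
def state2 (B OFF c0 c1 ap am bp bm cp cm dp dm ulo uhi vlo vhi : ℕ)
    (U : List (ℕ × ℕ)) (T : List ℕ) (c : ℕ) : Bool :=
  cond (Nat.blt (Nat.div c 21) ulo) true
  (cond (Nat.ble uhi (Nat.div c 21)) true
  (cond (Nat.blt (Nat.mod c 21) vlo) true
  (cond (Nat.ble vhi (Nat.mod c 21)) true
  (walk B OFF (Nat.div (val6 c0 ap am bp bm c) 6) (Nat.div (val6 c1 cp cm dp dm c) 6) U T))))

/-- all states of one triple with gap class `≥ 2` -/
def Img.trip2 (D : Img) (T : List ℕ) (i j k : ℕ) : Bool :=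
  cond (Nat.beq (Nat.mod (lk 2 i j k) 4) 3) true
  (decide (0 ≤ D.C0 (lk 2 i j k % 4) i j k) && (decide (0 ≤ D.C1 (lk 2 i j k % 4) i j k) &&
    (dec 64 (Nat.div (lk 2 i j k) 4)).all
      (state2 D.B D.OFF (D.C0 (lk 2 i j k % 4) i j k).toNat (D.C1 (lk 2 i j k % 4) i j k).toNat
        D.a02.toNat (-D.a02).toNat D.a03.toNat (-D.a03).toNat
        D.a12.toNat (-D.a12).toNat D.a13.toNat (-D.a13).toNat
        (D.ulo i j k) (D.uhi i j k) (D.vlo i j k) (D.vhi i j k)
        ((D.pre (lt j)).drop (startU D.L (lk 2 i j k % 4)))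
        (T.drop (startT D.L (lk 2 i j k % 4))))))

/-- all triples of gap class `≥ 2` whose outer letters are `α` and `β` -/
def Img.level2 (D : Img) (α β : ℕ) : Bool :=
  rowsT.all fun x => cond (Nat.beq (lt x.1) α)
    (rowsT.all fun z => cond (Nat.beq (lt z.1) β)
      (rowsT.all fun y =>
        D.trip2 (conv D.B (D.pre α) (codes D.B (D.pre β))) x.1 y.1 z.1) true) true

/-- direct comparison along the middle prefix -/
def walk1 (OFF a b : ℕ) : List (ℕ × ℕ) → List (ℕ × ℕ) → Bool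
  | [], _ => true
  | p :: U, T => match T with
    | [] => true
    | t :: T' => cond (Nat.beq (Nat.add a t.1) (Nat.add (Nat.mul 2 p.1) OFF))
        (cond (Nat.beq (Nat.add b t.2) (Nat.add (Nat.mul 2 p.2) OFF)) false
          (walk1 OFF a b U T'.tail))
        (walk1 OFF a b U T'.tail)

/-- one second difference for gap class `g ≤ 1`: all prefixes of the first letter -/
def state01 (OFF K va vb gL sT sU : ℕ) (U V : List (ℕ × ℕ)) :
    List (ℕ × ℕ) → ℕ → Bool
  | [], _ => true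
  | p :: l, o1 =>
    walk1 OFF (Nat.add va p.1) (Nat.add vb p.2) (U.drop (sU + (o1 + K - gL - sU)))
      ((List.replicate o1 (1000000, 0) ++ V).drop (sT + 2 * (o1 + K - gL - sU))) &&
    state01 OFF K va vb gL sT sU U V l (o1 + 1)

def Img.trip01 (D : Img) (g i j k : ℕ) : Bool :=
  cond (Nat.beq (Nat.mod (lk g i j k) 4) 3) true
  (decide (0 ≤ D.C0 (lk g i j k % 4) i j k) && (decide (0 ≤ D.C1 (lk g i j k % 4) i j k) &&
    (dec 64 (Nat.div (lk g i j k) 4)).all fun c =>
      state01 D.OFF D.K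
        (Nat.div (val6 (D.C0 (lk g i j k % 4) i j k).toNat D.a02.toNat (-D.a02).toNat
          D.a03.toNat (-D.a03).toNat c) 6)
        (Nat.div (val6 (D.C1 (lk g i j k % 4) i j k).toNat D.a12.toNat (-D.a12).toNat
          D.a13.toNat (-D.a13).toNat c) 6)
        (g * D.L) (startT D.L (lk g i j k % 4)) (startU D.L (lk g i j k % 4))
        (D.pre (lt j)) (D.pre (lt k)) (D.pre (lt i)) 0))

def Img.level01 (D : Img) (g i : ℕ) : Bool :=
  rowsT.all fun y => rowsT.all fun z => D.trip01 g i y.1 z.1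

end Pool.Agent.Work.MP_cabd9e_co
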