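import Pool.Agent.Work.MP_cabd9e_co.Closure

/-!
# MP_cabd9e_co: soundness of the closure checker
-/

set_option autoImplicit false

namespace Pool.Agent.Work.MP_cabd9e_co

/-- the second difference `(q₁, q₂, q₃)` is listed for the triple -/
def Mem (g i j k : ℕ) (q1 q2 q3 : ℤ) : Prop :=
  ((lk g i j k % 4 : ℕ) : ℤ) = q1 + 1 ∧
    ∃ c ∈ dec 64 (lk g i j k / 4), (c : ℤ) = (q2 + 16) * 21 + (q3 + 10)

theorem testBit_one_shiftLeft (p m : ℕ) : (Nat.shiftLeft 1 p).testBit m = true ↔ p = m := by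
  have h : Nat.shiftLeft 1 p = 2 ^ p := by
    have := Nat.one_shiftLeft p
    exact this
  rw [h, Nat.testBit_two_pow]
  simp

theorem testBit_mkS (l : List ℕ) (m : ℕ) : (mkS l).testBit m = true ↔ ∃ c ∈ l, posS c = m := by
  induction l with
  | nil => simp [mkS]
  | cons c l ih =>
    have : (mkS (c :: l)).testBit m = ((Nat.shiftLeft 1 (posS c)).testBit m || (mkS l).testBit m) := by
      show (Nat.lor _ _).testBit m = _
      exact Nat.testBit_or _ _ _
    rw [this, Bool.or_eq_true, testBit_one_shiftLeft, ih]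
    simp

theorem testBit_mkE (l : List ℕ) (m : ℕ) : (mkE l).testBit m = true ↔ ∃ c ∈ l, posE c = m := by
  induction l with
  | nil => simp [mkE]
  | cons c l ih =>
    have : (mkE (c :: l)).testBit m = ((Nat.shiftLeft 1 (posE c)).testBit m || (mkE l).testBit m) := by
      show (Nat.lor _ _).testBit m = _
      exact Nat.testBit_or _ _ _
    rw [this, Bool.or_eq_true, testBit_one_shiftLeft, ih]
    simp

theorem posS_inj {c c' : ℕ} (h : posS c = posS c') : c = c' := by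
  have e1 : posS c = (c / 21 + 28) * 45 + (c % 21 + 712) := rfl
  have e2 : posS c' = (c' / 21 + 28) * 45 + (c' % 21 + 712) := rfl
  rw [e1, e2] at h
  omega

theorem testBit_mask {c : ℕ} (h : c < 693) : mask.testBit (posS c) = true := by
  rw [mask, testBit_mkS]
  exact ⟨c, List.mem_range.mpr h, rfl⟩

theorem stepOk_sound {g' s E o1 t1 u1 i' o2 u2 t2 j' o3 t3 u3 k' : ℕ}
    (h : stepOk g' s E mask (o1, t1, u1, i') (o2, u2, t2, j') (o3, t3, u3, k') = true)
    {c p : ℕ} (hc : c < 693) (hE : E.testBit p = true) (hp : posS c = p + (t1 + (t2 + t3)))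
    (h1 : 2 * o2 + 2 ≤ 3 * s + (o1 + o3)) (h2 : 3 * s + (o1 + o3) ≤ 2 * o2 + 4) :
    lk g' i' j' k' % 4 + (2 * o2 + 2) = 3 * s + (o1 + o3) ∧
      c ∈ dec 64 (lk g' i' j' k' / 4) := by
  have n1 : Nat.blt (Nat.add (Nat.mul 3 s) (Nat.add o1 o3)) (Nat.add (Nat.mul 2 o2) 2) = false := by
    rw [Bool.eq_false_iff]
    intro hh
    have : 3 * s + (o1 + o3) < 2 * o2 + 2 := Nat.blt_eq.mp hh
    omega
  have n2 : Nat.blt (Nat.add (Nat.mul 2 o2) 4) (Nat.add (Nat.mul 3 s) (Nat.add o1 o3)) = false := by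
    rw [Bool.eq_false_iff]
    intro hh
    have : 2 * o2 + 4 < 3 * s + (o1 + o3) := Nat.blt_eq.mp hh
    omega
  simp only [stepOk, n1, n2, cond_false] at h
  have h3 := Nat.eq_of_beq_eq_true h
  set X := Nat.shiftLeft E (Nat.add t1 (Nat.add t2 t3)) with hX
  have hXb : X.testBit (posS c) = true := by
    have e : X = E <<< (t1 + (t2 + t3)) := rfl
    rw [e, Nat.testBit_shiftLeft, hp]
    simp [hE]
  have hY : (Nat.land X mask).testBit (posS c) = true := by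
    have : (Nat.land X mask).testBit (posS c) = (X.testBit (posS c) && mask.testBit (posS c)) :=
      Nat.testBit_and _ _ _
    rw [this, hXb, testBit_mask hc]; rfl
  have hZ := congrArg (fun z => z.testBit (posS c)) h3
  try simp only at hZ
  have e5 : ∀ A B : ℕ, (Nat.land A B).testBit (posS c) = (A.testBit (posS c) && B.testBit (posS c)) :=
    fun A B => Nat.testBit_and _ _ _
  rw [e5 (Nat.land X mask), hY, Bool.true_and] at hZ
  cases hb : Nat.beq (Nat.add (Nat.mod (lk g' i' j' k') 4) (Nat.add (Nat.mul 2 o2) 2))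
            (Nat.add (Nat.mul 3 s) (Nat.add o1 o3)) with
  | false =>
    rw [hb, cond_false] at hZ
    simp at hZ
  | true =>
    rw [hb, cond_true, testBit_mkS] at hZ
    obtain ⟨c', hc', hcc⟩ := hZ
    have := posS_inj hcc
    subst this
    exact ⟨Nat.eq_of_beq_eq_true hb, hc'⟩

def lin (i o : ℕ) : ℤ := 45 * lq2 i o + lq3 i o

def row (i : ℕ) : List (ℕ × ℕ × ℕ × ℕ) := (rowsT.getD i (0, [])).2

theorem mem_rowsT : ∀ i < 12, (i, row i) ∈ rowsT := by decide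

theorem row_eq : ∀ i < 12, row i =
    [(0, (200 + lin i 0).toNat, (300 - 2 * lin i 0).toNat, tr i 0),
     (1, (200 + lin i 1).toNat, (300 - 2 * lin i 1).toNat, tr i 1),
     (2, (200 + lin i 2).toNat, (300 - 2 * lin i 2).toNat, tr i 2)] := by decide

theorem mem_row (i : ℕ) (hi : i < 12) (o : ℕ) (ho : o < 3) :
    (o, (200 + lin i o).toNat, (300 - 2 * lin i o).toNat, tr i o) ∈ row i := by
  rw [row_eq i hi]
  interval_cases o <;> simp

theorem lin_bd : ∀ i < 12, ∀ o < 3, -200 ≤ lin i o ∧ lin i o ≤ 150 ∧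
    -4 ≤ lq2 i o ∧ lq2 i o ≤ 3 ∧ -2 ≤ lq3 i o ∧ lq3 i o ≤ 1 := by decide

/-- the step for one child -/
theorem child_mem {g' g i j k o1 o2 o3 : ℕ} (hi : i < 12) (hj : j < 12) (hk : k < 12)
    (ho1 : o1 < 3) (ho2 : o2 < 3) (ho3 : o3 < 3)
    (h : stepOk g' (Nat.mod (lk g i j k) 4) (mkE (dec 64 (Nat.div (lk g i j k) 4))) mask
      (o1, (200 + lin i o1).toNat, (300 - 2 * lin i o1).toNat, tr i o1)
      (o2, (200 + lin j o2).toNat, (300 - 2 * lin j o2).toNat, tr j o2)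
      (o3, (200 + lin k o3).toNat, (300 - 2 * lin k o3).toNat, tr k o3) = true)
    {q1 q2 q3 p1 p2 p3 : ℤ} (hm : Mem g i j k q1 q2 q3)
    (hq3 : -10 ≤ q3 ∧ q3 ≤ 10)
    (hp1 : p1 = 3 * q1 + o3 - 2 * o2 + o1)
    (hp2 : p2 = 3 * q3 + lq2 k o3 - 2 * lq2 j o2 + lq2 i o1)
    (hp3 : p3 = q2 + lq3 k o3 - 2 * lq3 j o2 + lq3 i o1)
    (b1 : -1 ≤ p1 ∧ p1 ≤ 1) (b2 : -16 ≤ p2 ∧ p2 ≤ 16) (b3 : -10 ≤ p3 ∧ p3 ≤ 10) :
    Mem g' (tr i o1) (tr j o2) (tr k o3) p1 p2 p3 := by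
  obtain ⟨hs, c, hc, hcq⟩ := hm
  have l1 := lin_bd i hi o1 ho1
  have l2 := lin_bd j hj o2 ho2
  have l3 := lin_bd k hk o3 ho3
  have e1 : (((200 + lin i o1).toNat : ℕ) : ℤ) = 200 + lin i o1 := Int.toNat_of_nonneg (by omega)
  have e2 : (((300 - 2 * lin j o2).toNat : ℕ) : ℤ) = 300 - 2 * lin j o2 :=
    Int.toNat_of_nonneg (by omega)
  have e3 : (((200 + lin k o3).toNat : ℕ) : ℤ) = 200 + lin k o3 := Int.toNat_of_nonneg (by omega)
  have f1 : lin i o1 = 45 * lq2 i o1 + lq3 i o1 := rfl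
  have f2 : lin j o2 = 45 * lq2 j o2 + lq3 j o2 := rfl
  have f3 : lin k o3 = 45 * lq2 k o3 + lq3 k o3 := rfl
  obtain ⟨d, hd⟩ : ∃ d : ℕ, (d : ℤ) = (p2 + 16) * 21 + (p3 + 10) :=
    ⟨((p2 + 16) * 21 + (p3 + 10)).toNat, Int.toNat_of_nonneg (by omega)⟩
  have hE : (mkE (dec 64 (Nat.div (lk g i j k) 4))).testBit (posE c) = true :=
    (testBit_mkE _ _).mpr ⟨c, hc, rfl⟩
  have pE : posE c = (3 * (c % 21) + 14) * 45 + (c / 21 + 6) := rfl
  have pS : posS d = (d / 21 + 28) * 45 + (d % 21 + 712) := rfl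
  have hs' : ((Nat.mod (lk g i j k) 4 : ℕ) : ℤ) = q1 + 1 := hs
  have key : posS d = posE c + ((200 + lin i o1).toNat + ((300 - 2 * lin j o2).toNat +
      (200 + lin k o3).toNat)) := by
    rw [pE, pS]
    have c1 : ((c / 21 : ℕ) : ℤ) = q2 + 16 := by omega
    have c2 : ((c % 21 : ℕ) : ℤ) = q3 + 10 := by omega
    have d1 : ((d / 21 : ℕ) : ℤ) = p2 + 16 := by omega
    have d2 : ((d % 21 : ℕ) : ℤ) = p3 + 10 := by omega
    have : (((d / 21 + 28) * 45 + (d % 21 + 712) : ℕ) : ℤ) =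
        (((3 * (c % 21) + 14) * 45 + (c / 21 + 6) + ((200 + lin i o1).toNat +
          ((300 - 2 * lin j o2).toNat + (200 + lin k o3).toNat)) : ℕ) : ℤ) := by
      push_cast only [Nat.cast_add, Nat.cast_mul, Nat.cast_ofNat]
      rw [e1, e2, e3, c1, c2, d1, d2]
      linarith
    exact_mod_cast this
  have hd693 : d < 693 := by omega
  obtain ⟨r1, r2⟩ := stepOk_sound h hd693 hE key (by omega) (by omega)
  refine ⟨?_, d, r2, hd⟩
  have : lk g' (tr i o1) (tr j o2) (tr k o3) % 4 + (2 * o2 + 2) =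
    3 * (Nat.mod (lk g i j k) 4) + (o1 + o3) := r1
  omega

end Pool.Agent.Work.MP_cabd9e_co
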