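import Pool.Agent.Work.MP_cabd9e_co.Level
import Pool.Agent.Work.MP_cabd9e_co.Sound

/-!
# MP_cabd9e_co: soundness of the list operations of the level checker
-/

set_option autoImplicit false

namespace Pool.Agent.Work.MP_cabd9e_co

theorem zipLor_left (l l' : List ℕ) (n a : ℕ) (h : l[n]? = some a) :
    ∃ t, (zipLor l l')[n]? = some t ∧ ∀ e, a.testBit e = true → t.testBit e = true := by
  induction l generalizing l' n with
  | nil => simp at h
  | cons x l ih =>
    cases l' with
    | nil => exact ⟨a, by simpa [zipLor] using h, fun e he => he⟩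
    | cons y l' =>
      cases n with
      | zero =>
        simp only [List.getElem?_cons_zero, Option.some.injEq] at h
        subst h
        refine ⟨Nat.lor x y, by simp [zipLor], fun e he => ?_⟩
        have : (Nat.lor x y).testBit e = (x.testBit e || y.testBit e) := Nat.testBit_or _ _ _
        rw [this, he]; rfl
      | succ n =>
        simp only [List.getElem?_cons_succ] at h
        obtain ⟨t, h1, h2⟩ := ih l' n h
        exact ⟨t, by simpa [zipLor] using h1, h2⟩

theorem zipLor_right (l l' : List ℕ) (n a : ℕ) (h : l'[n]? = some a) :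
    ∃ t, (zipLor l l')[n]? = some t ∧ ∀ e, a.testBit e = true → t.testBit e = true := by
  induction l generalizing l' n with
  | nil => exact ⟨a, by simpa [zipLor] using h, fun e he => he⟩
  | cons x l ih =>
    cases l' with
    | nil => simp at h
    | cons y l' =>
      cases n with
      | zero =>
        simp only [List.getElem?_cons_zero, Option.some.injEq] at h
        subst h
        refine ⟨Nat.lor x y, by simp [zipLor], fun e he => ?_⟩
        have : (Nat.lor x y).testBit e = (x.testBit e || y.testBit e) := Nat.testBit_or _ _ _
        rw [this, he]; simp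
      | succ n =>
        simp only [List.getElem?_cons_succ] at h
        obtain ⟨t, h1, h2⟩ := ih l' n h
        exact ⟨t, by simpa [zipLor] using h1, h2⟩

theorem shl_get (n : ℕ) (l : List ℕ) (m t : ℕ) (h : l[m]? = some t) :
    (shl n l)[m]? = some (Nat.shiftLeft t n) := by
  induction l generalizing m with
  | nil => simp at h
  | cons x l ih =>
    cases m with
    | zero =>
      simp only [List.getElem?_cons_zero, Option.some.injEq] at h
      subst h
      simp [shl]
    | succ m =>
      simp only [List.getElem?_cons_succ] at h
      simpa [shl] using ih m h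

theorem testBit_shl (t n e : ℕ) (h : t.testBit e = true) :
    (Nat.shiftLeft t n).testBit (n + e) = true := by
  have : (Nat.shiftLeft t n) = t <<< n := rfl
  rw [this, Nat.testBit_shiftLeft]
  simp [h]

theorem codes_get (B : ℕ) (l : List (ℕ × ℕ)) (m : ℕ) (p : ℕ × ℕ) (h : l[m]? = some p) :
    ∃ t, (codes B l)[m]? = some t ∧ t.testBit (p.1 * B + p.2) = true := by
  induction l generalizing m with
  | nil => simp at h
  | cons x l ih =>
    cases m with
    | zero =>
      simp only [List.getElem?_cons_zero, Option.some.injEq] at h
      subst h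
      exact ⟨_, by simp [codes], (testBit_one_shiftLeft _ _).mpr rfl⟩
    | succ m =>
      simp only [List.getElem?_cons_succ] at h
      simpa [codes] using ih m h

theorem conv_get (B : ℕ) (P : List (ℕ × ℕ)) (S : List ℕ) (o1 o3 : ℕ) (p : ℕ × ℕ) (t e : ℕ)
    (h1 : P[o1]? = some p) (h3 : S[o3]? = some t) (he : t.testBit e = true) :
    ∃ t', (conv B P S)[o1 + o3]? = some t' ∧ t'.testBit (p.1 * B + p.2 + e) = true := by
  induction P generalizing o1 with
  | nil => simp at h1
  | cons x P ih =>
    cases o1 with
    | zero =>
      simp only [List.getElem?_cons_zero, Option.some.injEq] at h1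
      subst h1
      have h4 := shl_get (x.1 * B + x.2) S o3 t h3
      obtain ⟨t', h5, h6⟩ := zipLor_left (shl (x.1 * B + x.2) S) (0 :: conv B P S) o3 _ h4
      refine ⟨t', ?_, h6 _ (testBit_shl _ _ _ he)⟩
      rw [Nat.zero_add]
      exact h5
    | succ o1 =>
      simp only [List.getElem?_cons_succ] at h1
      obtain ⟨t', h5, h6⟩ := ih o1 h1
      have h7 : (0 :: conv B P S)[o1 + 1 + o3]? = some t' := by
        rw [show o1 + 1 + o3 = (o1 + o3) + 1 by ring, List.getElem?_cons_succ]
        exact h5
      obtain ⟨t'', h8, h9⟩ := zipLor_right (shl (x.1 * B + x.2) S) (0 :: conv B P S) _ _ h7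
      exact ⟨t'', h8, h9 _ h6⟩

theorem walk_get {B OFF va vb : ℕ} {U : List (ℕ × ℕ)} {T : List ℕ}
    (h : walk B OFF va vb U T = true) {m : ℕ} {p : ℕ × ℕ} {t : ℕ}
    (hU : U[m]? = some p) (hT : T[2 * m]? = some t) : tst B OFF va vb t p = true := by
  induction U generalizing T m with
  | nil => simp at hU
  | cons x U ih =>
    cases T with
    | nil => simp at hT
    | cons y T =>
      rw [walk] at h
      cases m with
      | zero =>
        simp only [List.getElem?_cons_zero, Option.some.injEq] at hU
        simp only [Nat.mul_zero, List.getElem?_cons_zero, Option.some.injEq] at hT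
        subst hU hT
        cases hb : tst B OFF va vb y x with
        | true => rfl
        | false => simp [hb] at h
      | succ m =>
        simp only [List.getElem?_cons_succ] at hU
        rw [show 2 * (m + 1) = (2 * m + 1) + 1 by ring, List.getElem?_cons_succ] at hT
        have hT' : T.tail[2 * m]? = some t := by
          cases T with
          | nil => simp at hT
          | cons z T => simpa using hT
        cases hb : tst B OFF va vb y x with
        | true =>
          simp only [hb, cond_true] at h
          exact ih h hU hT'
        | false => simp [hb] at h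

/-- a point with the bit set fails the test -/
theorem tst_false {B OFF va vb t : ℕ} {p : ℕ × ℕ} (wa wb : ℕ) (ha : va + wa = 2 * p.1 + OFF)
    (hb : vb + wb = 2 * p.2 + OFF) (hwa : wa < B) (hwb : wb < B)
    (ht : t.testBit (wa * B + wb) = true) : tst B OFF va vb t p = false := by
  have e1 : Nat.ble va (Nat.add (Nat.mul 2 p.1) OFF) = true :=
    Nat.ble_eq.mpr (by show va ≤ 2 * p.1 + OFF; omega)
  have e2 : Nat.ble vb (Nat.add (Nat.mul 2 p.2) OFF) = true :=
    Nat.ble_eq.mpr (by show vb ≤ 2 * p.2 + OFF; omega)
  have f1 : Nat.sub (Nat.add (Nat.mul 2 p.1) OFF) va = wa := by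
    show 2 * p.1 + OFF - va = wa; omega
  have f2 : Nat.sub (Nat.add (Nat.mul 2 p.2) OFF) vb = wb := by
    show 2 * p.2 + OFF - vb = wb; omega
  have e3 : Nat.blt wa B = true := Nat.blt_eq.mpr hwa
  have e4 : Nat.blt wb B = true := Nat.blt_eq.mpr hwb
  rw [tst, e1, e2, f1, f2, e3, e4]
  simp only [cond_true]
  rw [Bool.eq_false_iff]
  intro hh
  have h0 := Nat.eq_of_beq_eq_true hh
  have h1 : t.testBit (wa * B + wb) = ((1 &&& (t >>> (wa * B + wb))) != 0) := rfl
  have h2 : (1 &&& (t >>> (wa * B + wb))) = 0 := h0
  rw [h1, h2] at ht
  simp at ht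

theorem walk1_get {OFF a b : ℕ} {U T : List (ℕ × ℕ)}
    (h : walk1 OFF a b U T = true) {m : ℕ} {p t : ℕ × ℕ}
    (hU : U[m]? = some p) (hT : T[2 * m]? = some t) :
    ¬ (a + t.1 = 2 * p.1 + OFF ∧ b + t.2 = 2 * p.2 + OFF) := by
  induction U generalizing T m with
  | nil => simp at hU
  | cons x U ih =>
    cases T with
    | nil => simp at hT
    | cons y T =>
      rw [walk1] at h
      cases m with
      | zero =>
        simp only [List.getElem?_cons_zero, Option.some.injEq] at hU
        simp only [Nat.mul_zero, List.getElem?_cons_zero, Option.some.injEq] at hT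
        subst hU hT
        rintro ⟨h1, h2⟩
        have e1 : Nat.beq (Nat.add a y.1) (Nat.add (Nat.mul 2 x.1) OFF) = true :=
          Nat.beq_eq.mpr h1
        have e2 : Nat.beq (Nat.add b y.2) (Nat.add (Nat.mul 2 x.2) OFF) = true :=
          Nat.beq_eq.mpr h2
        rw [e1, e2] at h
        simp at h
      | succ m =>
        simp only [List.getElem?_cons_succ] at hU
        rw [show 2 * (m + 1) = (2 * m + 1) + 1 by ring, List.getElem?_cons_succ] at hT
        have hT' : T.tail[2 * m]? = some t := by
          cases T with
          | nil => simp at hT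
          | cons z T => simpa using hT
        have h' : walk1 OFF a b U T.tail = true := by
          cases hb : Nat.beq (Nat.add a y.1) (Nat.add (Nat.mul 2 x.1) OFF) with
          | false => rw [hb, cond_false] at h; exact h
          | true =>
            rw [hb, cond_true] at h
            cases hb2 : Nat.beq (Nat.add b y.2) (Nat.add (Nat.mul 2 x.2) OFF) with
            | false => rw [hb2, cond_false] at h; exact h
            | true => rw [hb2, cond_true] at h; exact absurd h Bool.false_ne_true
        exact ih h' hU hT'

theorem state01_get {OFF K va vb gL sT sU : ℕ} {U V l : List (ℕ × ℕ)}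
    {o1 : ℕ} (h : state01 OFF K va vb gL sT sU U V l o1 = true)
    {m : ℕ} {p : ℕ × ℕ} (hl : l[m]? = some p) :
    walk1 OFF (Nat.add va p.1) (Nat.add vb p.2) (U.drop (sU + (o1 + m + K - gL - sU)))
      ((List.replicate (o1 + m) (1000000, 0) ++ V).drop (sT + 2 * (o1 + m + K - gL - sU))) = true := by
  induction l generalizing o1 m with
  | nil => simp at hl
  | cons x l ih =>
    rw [state01, Bool.and_eq_true] at h
    cases m with
    | zero =>
      simp only [List.getElem?_cons_zero, Option.some.injEq] at hl
      subst hl
      exact h.1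
    | succ m =>
      simp only [List.getElem?_cons_succ] at hl
      have := ih h.2 hl
      rw [show o1 + (m + 1) = o1 + 1 + m by ring]
      exact this

end Pool.Agent.Work.MP_cabd9e_co
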