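import Pool.Agent.Work.MP_cabd9e_co.Affine
import Pool.Agent.Work.MP_cabd9e_co.ClosureThm

/-!
# MP_cabd9e_co: soundness of the level checker
-/

set_option autoImplicit false

namespace Pool.Agent.Work.MP_cabd9e_co

/-- the two combinations that isolate `q₂` and `q₃` -/
def Img.mu2 (D : Img) (i o x y : ℕ) : ℤ :=
  D.a13 * (D.L * (D.o0 i + 6 * x) - D.a01 * o) - D.a03 * (D.L * (D.o1 i + 6 * y) - D.a11 * o)

def Img.mu3 (D : Img) (i o x y : ℕ) : ℤ :=
  -D.a12 * (D.L * (D.o0 i + 6 * x) - D.a01 * o) + D.a02 * (D.L * (D.o1 i + 6 * y) - D.a11 * o)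

/-- the range test for one refined letter -/
def Img.rangeOk (D : Img) (i : ℕ) : List (ℕ × ℕ) → ℕ → Bool
  | [], _ => true
  | p :: l, o =>
    (decide (D.mn2.getD i 0 ≤ D.mu2 i o p.1 p.2) && (decide (D.mu2 i o p.1 p.2 ≤ D.mx2.getD i 0) &&
      (decide (D.mn3.getD i 0 ≤ D.mu3 i o p.1 p.2) &&
        decide (D.mu3 i o p.1 p.2 ≤ D.mx3.getD i 0)))) && D.rangeOk i l (o + 1)

theorem Img.rangeOk_get (D : Img) {i : ℕ} {l : List (ℕ × ℕ)} {o : ℕ} (h : D.rangeOk i l o = true)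
    {m : ℕ} {p : ℕ × ℕ} (hl : l[m]? = some p) :
    D.mn2.getD i 0 ≤ D.mu2 i (o + m) p.1 p.2 ∧ D.mu2 i (o + m) p.1 p.2 ≤ D.mx2.getD i 0 ∧
    D.mn3.getD i 0 ≤ D.mu3 i (o + m) p.1 p.2 ∧ D.mu3 i (o + m) p.1 p.2 ≤ D.mx3.getD i 0 := by
  induction l generalizing o m with
  | nil => simp at hl
  | cons x l ih =>
    rw [Img.rangeOk, Bool.and_eq_true] at h
    cases m with
    | zero =>
      simp only [List.getElem?_cons_zero, Option.some.injEq] at hl
      subst hl
      simpa using h.1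
    | succ m =>
      simp only [List.getElem?_cons_succ] at hl
      have := ih h.2 hl
      rw [show o + (m + 1) = o + 1 + m by ring]
      exact this

/-- validity of the ranges -/
structure Img.Ranges (D : Img) : Prop where
  detpos : 0 < D.det
  range : ∀ i < 12, D.rangeOk i (D.pre (lt i)) 0 = true
  b2 : ∀ i < 12, ∀ j < 12, 2 * (D.mx2.getD i 0 - D.mn2.getD j 0) < 17 * D.det
  b3 : ∀ i < 12, ∀ j < 12, 2 * (D.mx3.getD i 0 - D.mn3.getD j 0) < 11 * D.det

theorem lt_lt : ∀ i < 12, lt i < 6 := by decide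

/-- the core: no second difference vanishes -/
theorem Img.core (D : Img) (hD : D.Valid) (hR : D.Ranges)
    (h2 : ∀ α < 6, ∀ β < 6, D.level2 α β = true)
    (h01 : ∀ g < 2, ∀ i < 12, D.level01 g i = true)
    (P p : ℕ) (hp : D.K ≤ p)
    (e0 : (D.cnt 0 (P + 2 * p) : ℤ) - 2 * D.cnt 0 (P + p) + D.cnt 0 P = 0)
    (e1 : (D.cnt 1 (P + 2 * p) : ℤ) - 2 * D.cnt 1 (P + p) + D.cnt 1 P = 0) : False := by
  have hL := hD.Lpos
  have hK := hD.Kpos
  -- positions
  obtain ⟨n1, o1, ho1, hn1⟩ : ∃ n o, o < D.L ∧ P = D.L * n + o :=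
    ⟨P / D.L, P % D.L, Nat.mod_lt _ hL, (Nat.div_add_mod _ _).symm⟩
  obtain ⟨n2, o2, ho2, hn2⟩ : ∃ n o, o < D.L ∧ P + p = D.L * n + o :=
    ⟨(P + p) / D.L, (P + p) % D.L, Nat.mod_lt _ hL, (Nat.div_add_mod _ _).symm⟩
  obtain ⟨n3, o3, ho3, hn3⟩ : ∃ n o, o < D.L ∧ P + 2 * p = D.L * n + o :=
    ⟨(P + 2 * p) / D.L, (P + 2 * p) % D.L, Nat.mod_lt _ hL, (Nat.div_add_mod _ _).symm⟩
  have h12 : n1 ≤ n2 := by
    by_contra hcon
    have : D.L * (n2 + 1) ≤ D.L * n1 := Nat.mul_le_mul_left _ (by omega)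
    have h5 : D.L * (n2 + 1) = D.L * n2 + D.L := by ring
    omega
  -- letters
  set r1 := rr n1 with hr1
  set r2 := rr n2 with hr2
  set r3 := rr n3 with hr3
  have lr1 : r1 < 12 := rr_lt _
  have lr2 : r2 < 12 := rr_lt _
  have lr3 : r3 < 12 := rr_lt _
  have len1 := hD.len _ lr1
  have len2 := hD.len _ lr2
  have len3 := hD.len _ lr3
  -- prefix counts
  have g1 := preList_get 0 0 (D.word (lt r1)) o1 (by omega)
  have g2 := preList_get 0 0 (D.word (lt r2)) o2 (by omega)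
  have g3 := preList_get 0 0 (D.word (lt r3)) o3 (by omega)
  simp only [Nat.zero_add] at g1 g2 g3
  set x1 := ((D.word (lt r1)).take o1).count 0 with hx1
  set y1 := ((D.word (lt r1)).take o1).count 1 with hy1
  set x2 := ((D.word (lt r2)).take o2).count 0 with hx2
  set y2 := ((D.word (lt r2)).take o2).count 1 with hy2
  set x3 := ((D.word (lt r3)).take o3).count 0 with hx3
  set y3 := ((D.word (lt r3)).take o3).count 1 with hy3
  have bx : ∀ (l : List ℕ) (c o : ℕ), (l.take o).count c ≤ o := fun l c o =>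
    (List.count_le_length).trans (List.length_take_le _ _)
  have bx1 : x1 ≤ o1 := bx _ _ _
  have by1 : y1 ≤ o1 := bx _ _ _
  have bx2 : x2 ≤ o2 := bx _ _ _
  have by2 : y2 ≤ o2 := bx _ _ _
  have bx3 : x3 ≤ o3 := bx _ _ _
  have by3 : y3 ≤ o3 := bx _ _ _
  -- counting functions
  have c10 := D.cnt_add hD 0 n1 o1 ho1.le
  have c11 := D.cnt_add hD 1 n1 o1 ho1.le
  have c20 := D.cnt_add hD 0 n2 o2 ho2.le
  have c21 := D.cnt_add hD 1 n2 o2 ho2.le
  have c30 := D.cnt_add hD 0 n3 o3 ho3.le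
  have c31 := D.cnt_add hD 1 n3 o3 ho3.le
  obtain ⟨b10, b11⟩ := D.cnt_base hD n1
  obtain ⟨b20, b21⟩ := D.cnt_base hD n2
  obtain ⟨b30, b31⟩ := D.cnt_base hD n3
  rw [hn3, hn2, hn1, c10, c20, c30] at e0
  rw [hn3, hn2, hn1, c11, c21, c31] at e1
  push_cast at e0 e1
  -- second differences
  obtain ⟨q1, hq1⟩ : ∃ q : ℤ, q = (n3 : ℤ) - 2 * n2 + n1 := ⟨_, rfl⟩
  obtain ⟨q2, hq2⟩ : ∃ q : ℤ, q = (Qp n3).1 - 2 * (Qp n2).1 + (Qp n1).1 := ⟨_, rfl⟩
  obtain ⟨q3, hq3⟩ : ∃ q : ℤ, q = (Qp n3).2 - 2 * (Qp n2).2 + (Qp n1).2 := ⟨_, rfl⟩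
  have hLen : (D.L : ℤ) * q1 + o3 - 2 * o2 + o1 = 0 := by
    have z1 : (P : ℤ) = D.L * n1 + o1 := by exact_mod_cast hn1
    have z2 : (P : ℤ) + p = D.L * n2 + o2 := by exact_mod_cast hn2
    have z3 : (P : ℤ) + 2 * p = D.L * n3 + o3 := by exact_mod_cast hn3
    rw [hq1]; linear_combination z3 * (-1) + 2 * z2 - z1
  have hE0 : D.a01 * q1 + D.a02 * q2 + D.a03 * q3 + (D.o0 r3 - 2 * D.o0 r2 + D.o0 r1) +
      6 * ((x3 : ℤ) - 2 * x2 + x1) = 0 := by
    rw [hq1, hq2, hq3]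
    linear_combination 6 * e0 - b30 + 2 * b20 - b10
  have hE1 : D.a11 * q1 + D.a12 * q2 + D.a13 * q3 + (D.o1 r3 - 2 * D.o1 r2 + D.o1 r1) +
      6 * ((y3 : ℤ) - 2 * y2 + y1) = 0 := by
    rw [hq1, hq2, hq3]
    linear_combination 6 * e1 - b31 + 2 * b21 - b11
  -- bound on q1
  have hLz : (0 : ℤ) < D.L := by exact_mod_cast hL
  have o1z : (o1 : ℤ) < D.L := by exact_mod_cast ho1
  have o2z : (o2 : ℤ) < D.L := by exact_mod_cast ho2
  have o3z : (o3 : ℤ) < D.L := by exact_mod_cast ho3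
  have hb1 : -1 ≤ q1 ∧ q1 ≤ 1 := by
    constructor
    · by_contra hcon
      have h5 : q1 ≤ -2 := by omega
      have h6 : (D.L : ℤ) * q1 ≤ D.L * (-2) := mul_le_mul_of_nonneg_left h5 hLz.le
      omega
    · by_contra hcon
      have h5 : 2 ≤ q1 := by omega
      have h6 : (D.L : ℤ) * 2 ≤ D.L * q1 := mul_le_mul_of_nonneg_left h5 hLz.le
      omega
  -- the isolating combinations
  have m2 : D.det * q2 + D.mu2 r3 o3 x3 y3 - 2 * D.mu2 r2 o2 x2 y2 + D.mu2 r1 o1 x1 y1 = 0 := by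
    unfold Img.det Img.mu2
    linear_combination (D.L : ℤ) * D.a13 * hE0 - (D.L : ℤ) * D.a03 * hE1 +
      (D.a03 * D.a11 - D.a13 * D.a01) * hLen
  have m3 : D.det * q3 + D.mu3 r3 o3 x3 y3 - 2 * D.mu3 r2 o2 x2 y2 + D.mu3 r1 o1 x1 y1 = 0 := by
    unfold Img.det Img.mu3
    linear_combination -(D.L : ℤ) * D.a12 * hE0 + (D.L : ℤ) * D.a02 * hE1 +
      (D.a12 * D.a01 - D.a02 * D.a11) * hLen
  have k1 := D.rangeOk_get (hR.range _ lr1) g1
  have k2 := D.rangeOk_get (hR.range _ lr2) g2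
  have k3 := D.rangeOk_get (hR.range _ lr3) g3
  simp only [Nat.zero_add] at k1 k2 k3
  obtain ⟨k11, k12, k13, k14⟩ := k1
  obtain ⟨k21, k22, k23, k24⟩ := k2
  obtain ⟨k31, k32, k33, k34⟩ := k3
  have hdet := hR.detpos
  have hb2 : -16 ≤ q2 ∧ q2 ≤ 16 := by
    have t1 := hR.b2 _ lr2 _ lr1
    have t2 := hR.b2 _ lr2 _ lr3
    have t3 := hR.b2 _ lr1 _ lr2
    have t4 := hR.b2 _ lr3 _ lr2
    constructor
    · by_contra hcon
      have h5 : q2 ≤ -17 := by omega
      have h6 : D.det * q2 ≤ D.det * (-17) := mul_le_mul_of_nonneg_left h5 hdet.le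
      linarith only [h6, m2, t1, t2, t3, t4, k11, k12, k21, k22, k31, k32]
    · by_contra hcon
      have h5 : 17 ≤ q2 := by omega
      have h6 : D.det * 17 ≤ D.det * q2 := mul_le_mul_of_nonneg_left h5 hdet.le
      linarith only [h6, m2, t1, t2, t3, t4, k11, k12, k21, k22, k31, k32]
  have hb3 : -10 ≤ q3 ∧ q3 ≤ 10 := by
    have t1 := hR.b3 _ lr2 _ lr1
    have t2 := hR.b3 _ lr2 _ lr3
    have t3 := hR.b3 _ lr1 _ lr2
    have t4 := hR.b3 _ lr3 _ lr2
    constructor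
    · by_contra hcon
      have h5 : q3 ≤ -11 := by omega
      have h6 : D.det * q3 ≤ D.det * (-11) := mul_le_mul_of_nonneg_left h5 hdet.le
      linarith only [h6, m3, t1, t2, t3, t4, k13, k14, k23, k24, k33, k34]
    · by_contra hcon
      have h5 : 11 ≤ q3 := by omega
      have h6 : D.det * 11 ≤ D.det * q3 := mul_le_mul_of_nonneg_left h5 hdet.le
      linarith only [h6, m3, t1, t2, t3, t4, k13, k14, k23, k24, k33, k34]
  have hm := closure_mem n1 n2 n3 h12 (by rw [← hq1]; exact hb1) (by rw [← hq2]; exact hb2)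
    (by rw [← hq3]; exact hb3)
  rw [← hq1, ← hq2, ← hq3, ← hr1, ← hr2, ← hr3] at hm
  obtain ⟨hs, c, hc, hcq⟩ := hm
  -- decode
  have cu : ((c / 21 : ℕ) : ℤ) = q2 + 16 := by omega
  have cv : ((c % 21 : ℕ) : ℤ) = q3 + 10 := by omega
  -- the value of `val6`
  have hval0 : ∀ s : ℕ, (s : ℤ) = q1 + 1 → 0 ≤ D.C0 s r1 r2 r3 →
      Nat.div (val6 (D.C0 s r1 r2 r3).toNat D.a02.toNat (-D.a02).toNat D.a03.toNat
        (-D.a03).toNat c) 6 + (x1 + x3) = 2 * x2 + D.OFF := by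
    intro s hs hC
    have hLOFF := hD.LOFF
    have t0 : ((D.C0 s r1 r2 r3).toNat : ℤ) = D.C0 s r1 r2 r3 := Int.toNat_of_nonneg hC
    have t1 : (D.a02.toNat : ℤ) - ((-D.a02).toNat : ℤ) = D.a02 := by omega
    have t2 : (D.a03.toNat : ℤ) - ((-D.a03).toNat : ℤ) = D.a03 := by omega
    have t3 : D.C0 s r1 r2 r3 + D.a02 * (q2 + 16) + D.a03 * (q3 + 10) =
        6 * (D.OFF + 2 * x2 - (x1 + x3)) := by
      unfold Img.C0
      rw [show (s : ℤ) - 1 = q1 by omega]
      linear_combination hE0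
    have t4 : (((D.C0 s r1 r2 r3).toNat + (D.a02.toNat * (c / 21) + D.a03.toNat * (c % 21)) : ℕ) : ℤ) -
        (((-D.a02).toNat * (c / 21) + (-D.a03).toNat * (c % 21) : ℕ) : ℤ) =
        6 * (D.OFF + 2 * x2 - (x1 + x3)) := by
      push_cast
      rw [t0, ← t3]
      rw [show (q2 + 16 : ℤ) = ((c / 21 : ℕ) : ℤ) from cu.symm,
        show (q3 + 10 : ℤ) = ((c % 21 : ℕ) : ℤ) from cv.symm]
      push_cast
      linear_combination ((c : ℤ) / 21) * t1 + ((c : ℤ) % 21) * t2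
    have t5 : val6 (D.C0 s r1 r2 r3).toNat D.a02.toNat (-D.a02).toNat D.a03.toNat (-D.a03).toNat c
        = 6 * (D.OFF + 2 * x2 - (x1 + x3)) := by
      show (D.C0 s r1 r2 r3).toNat + (D.a02.toNat * (c / 21) + D.a03.toNat * (c % 21)) -
        ((-D.a02).toNat * (c / 21) + (-D.a03).toNat * (c % 21)) = _
      omega
    show val6 _ _ _ _ _ c / 6 + (x1 + x3) = 2 * x2 + D.OFF
    rw [t5]
    omega
  have hval1 : ∀ s : ℕ, (s : ℤ) = q1 + 1 → 0 ≤ D.C1 s r1 r2 r3 →
      Nat.div (val6 (D.C1 s r1 r2 r3).toNat D.a12.toNat (-D.a12).toNat D.a13.toNat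
        (-D.a13).toNat c) 6 + (y1 + y3) = 2 * y2 + D.OFF := by
    intro s hs hC
    have hLOFF := hD.LOFF
    have t0 : ((D.C1 s r1 r2 r3).toNat : ℤ) = D.C1 s r1 r2 r3 := Int.toNat_of_nonneg hC
    have t1 : (D.a12.toNat : ℤ) - ((-D.a12).toNat : ℤ) = D.a12 := by omega
    have t2 : (D.a13.toNat : ℤ) - ((-D.a13).toNat : ℤ) = D.a13 := by omega
    have t3 : D.C1 s r1 r2 r3 + D.a12 * (q2 + 16) + D.a13 * (q3 + 10) =
        6 * (D.OFF + 2 * y2 - (y1 + y3)) := by
      unfold Img.C1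
      rw [show (s : ℤ) - 1 = q1 by omega]
      linear_combination hE1
    have t4 : (((D.C1 s r1 r2 r3).toNat + (D.a12.toNat * (c / 21) + D.a13.toNat * (c % 21)) : ℕ) : ℤ) -
        (((-D.a12).toNat * (c / 21) + (-D.a13).toNat * (c % 21) : ℕ) : ℤ) =
        6 * (D.OFF + 2 * y2 - (y1 + y3)) := by
      push_cast
      rw [t0, ← t3]
      rw [show (q2 + 16 : ℤ) = ((c / 21 : ℕ) : ℤ) from cu.symm,
        show (q3 + 10 : ℤ) = ((c % 21 : ℕ) : ℤ) from cv.symm]
      push_cast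
      linear_combination ((c : ℤ) / 21) * t1 + ((c : ℤ) % 21) * t2
    have t5 : val6 (D.C1 s r1 r2 r3).toNat D.a12.toNat (-D.a12).toNat D.a13.toNat (-D.a13).toNat c
        = 6 * (D.OFF + 2 * y2 - (y1 + y3)) := by
      show (D.C1 s r1 r2 r3).toNat + (D.a12.toNat * (c / 21) + D.a13.toNat * (c % 21)) -
        ((-D.a12).toNat * (c / 21) + (-D.a13).toNat * (c % 21)) = _
      omega
    show val6 _ _ _ _ _ c / 6 + (y1 + y3) = 2 * y2 + D.OFF
    rw [t5]
    omega
  -- abbreviations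
  have hs4 : ((lk (min 2 (n2 - n1)) r1 r2 r3 % 4 : ℕ) : ℤ) = q1 + 1 := hs
  have hne : Nat.beq (Nat.mod (lk (min 2 (n2 - n1)) r1 r2 r3) 4) 3 = false := by
    rw [Bool.eq_false_iff]
    intro hh
    have h3 : lk (min 2 (n2 - n1)) r1 r2 r3 % 4 = 3 := Nat.eq_of_beq_eq_true hh
    rw [h3] at hs4
    push_cast at hs4
    omega
  obtain ⟨s, hsd⟩ : ∃ s, s = lk (min 2 (n2 - n1)) r1 r2 r3 % 4 := ⟨_, rfl⟩
  have hsq : (s : ℤ) = q1 + 1 := by rw [hsd]; exact hs4
  have hidx : startU D.L s ≤ o2 ∧ o1 + o3 = startT D.L s + 2 * (o2 - startU D.L s) := by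
    have hs3 : s = 0 ∨ s = 1 ∨ s = 2 := by omega
    rcases hs3 with h | h | h
    · subst h
      have : q1 = -1 := by omega
      subst this
      simp only [startT, startU]
      constructor <;> omega
    · subst h
      have : q1 = 0 := by omega
      subst this
      simp only [startT, startU]
      constructor <;> omega
    · subst h
      have : q1 = 1 := by omega
      subst this
      simp only [startT, startU]
      constructor <;> omega
  have hLB := hD.LB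
  rcases Nat.lt_or_ge (n2 - n1) 2 with hg | hg
  · -- gap class 0 or 1
    have hgm : min 2 (n2 - n1) = n2 - n1 := by omega
    rw [hgm] at hc hne hsd
    have h1 := h01 _ hg _ lr1
    have h2 := List.all_eq_true.mp h1 _ (mem_rowsT r2 lr2)
    have h3 := List.all_eq_true.mp h2 _ (mem_rowsT r3 lr3)
    simp only [Img.trip01] at h3
    rw [hne, cond_false, ← hsd, Bool.and_eq_true, Bool.and_eq_true] at h3
    obtain ⟨h4, h5, h6⟩ := h3
    have h7 := List.all_eq_true.mp h6 c hc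
    have v0 := hval0 s hsq (of_decide_eq_true h4)
    have v1 := hval1 s hsq (of_decide_eq_true h5)
    have h8 := state01_get h7 g1
    simp only [Nat.zero_add] at h8
    -- the condition on the period
    have hper : o1 + D.K - (n2 - n1) * D.L ≤ o2 := by
      have : P + p = D.L * n1 + o1 + p := by omega
      have e : D.L * n2 = D.L * n1 + (n2 - n1) * D.L := by
        have : n2 = n1 + (n2 - n1) := by omega
        conv_lhs => rw [this]
        ring
      omega
    obtain ⟨m, hm⟩ : ∃ m, m = o2 - (startU D.L s +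
        (o1 + D.K - (n2 - n1) * D.L - startU D.L s)) := ⟨_, rfl⟩
    have hU : (List.drop (startU D.L s + (o1 + D.K - (n2 - n1) * D.L - startU D.L s))
        (D.pre (lt r2)))[m]? = some (x2, y2) := by
      rw [List.getElem?_drop, ← g2]
      congr 1
      omega
    have hT : (List.drop (startT D.L s + 2 * (o1 + D.K - (n2 - n1) * D.L - startU D.L s))
        (List.replicate o1 (1000000, 0) ++ D.pre (lt r3)))[2 * m]? = some (x3, y3) := by
      rw [List.getElem?_drop]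
      have : startT D.L s + 2 * (o1 + D.K - (n2 - n1) * D.L - startU D.L s) + 2 * m = o1 + o3 := by
        omega
      rw [this, List.getElem?_append_right (by simp), List.length_replicate, Nat.add_sub_cancel_left]
      exact g3
    have h9 := walk1_get h8 hU hT
    apply h9
    constructor
    · show Nat.add _ x1 + x3 = 2 * x2 + D.OFF
      rw [← v0]
      show _ + x1 + x3 = _ + (x1 + x3)
      ring
    · show Nat.add _ y1 + y3 = 2 * y2 + D.OFF
      rw [← v1]
      show _ + y1 + y3 = _ + (y1 + y3)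
      ring
  · -- gap class ≥ 2
    have hgm : min 2 (n2 - n1) = 2 := by omega
    rw [hgm] at hc hne hsd
    have h := h2 (lt r1) (lt_lt r1 lr1) (lt r3) (lt_lt r3 lr3)
    unfold Img.level2 at h
    have h0 := List.all_eq_true.mp h _ (mem_rowsT r1 lr1)
    have hb1' : Nat.beq (lt r1) (lt r1) = true := Nat.beq_eq.mpr rfl
    have hb3' : Nat.beq (lt r3) (lt r3) = true := Nat.beq_eq.mpr rfl
    simp only [hb1', cond_true] at h0
    have h1 := List.all_eq_true.mp h0 _ (mem_rowsT r3 lr3)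
    simp only [hb3', cond_true] at h1
    have h2 := List.all_eq_true.mp h1 _ (mem_rowsT r2 lr2)
    simp only [Img.trip2] at h2
    rw [hne, cond_false, ← hsd, Bool.and_eq_true, Bool.and_eq_true] at h2
    obtain ⟨h4, h5, h6⟩ := h2
    have h7 := List.all_eq_true.mp h6 c hc
    have v0 := hval0 s hsq (of_decide_eq_true h4)
    have v1 := hval1 s hsq (of_decide_eq_true h5)
    -- the filter
    have f1 : Nat.blt (Nat.div c 21) (D.ulo r1 r2 r3) = false := by
      rw [Bool.eq_false_iff]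
      intro hh
      have h8 : c / 21 < D.ulo r1 r2 r3 := Nat.blt_eq.mp hh
      have h9 : (2 * D.mn2.getD r2 0 - D.mx2.getD r1 0 - D.mx2.getD r3 0) / D.det ≤ q2 := by
        apply Int.ediv_le_of_le_mul hdet
        linarith only [m2, k11, k12, k21, k22, k31, k32, mul_comm q2 D.det]
      unfold Img.ulo at h8
      omega
    have f2 : Nat.ble (D.uhi r1 r2 r3) (Nat.div c 21) = false := by
      rw [Bool.eq_false_iff]
      intro hh
      have h8 : D.uhi r1 r2 r3 ≤ c / 21 := Nat.ble_eq.mp hh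
      have h9 : q2 ≤ (2 * D.mx2.getD r2 0 - D.mn2.getD r1 0 - D.mn2.getD r3 0) / D.det := by
        rw [Int.le_ediv_iff_mul_le hdet]
        linarith only [m2, k11, k12, k21, k22, k31, k32, mul_comm q2 D.det]
      unfold Img.uhi at h8
      omega
    have f3 : Nat.blt (Nat.mod c 21) (D.vlo r1 r2 r3) = false := by
      rw [Bool.eq_false_iff]
      intro hh
      have h8 : c % 21 < D.vlo r1 r2 r3 := Nat.blt_eq.mp hh
      have h9 : (2 * D.mn3.getD r2 0 - D.mx3.getD r1 0 - D.mx3.getD r3 0) / D.det ≤ q3 := by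
        apply Int.ediv_le_of_le_mul hdet
        linarith only [m3, k13, k14, k23, k24, k33, k34, mul_comm q3 D.det]
      unfold Img.vlo at h8
      omega
    have f4 : Nat.ble (D.vhi r1 r2 r3) (Nat.mod c 21) = false := by
      rw [Bool.eq_false_iff]
      intro hh
      have h8 : D.vhi r1 r2 r3 ≤ c % 21 := Nat.ble_eq.mp hh
      have h9 : q3 ≤ (2 * D.mx3.getD r2 0 - D.mn3.getD r1 0 - D.mn3.getD r3 0) / D.det := by
        rw [Int.le_ediv_iff_mul_le hdet]
        linarith only [m3, k13, k14, k23, k24, k33, k34, mul_comm q3 D.det]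
      unfold Img.vhi at h8
      omega
    unfold state2 at h7
    rw [f1, f2, f3, f4] at h7
    simp only [cond_false] at h7
    have hU : (List.drop (startU D.L s) (D.pre (lt r2)))[o2 - startU D.L s]? = some (x2, y2) := by
      rw [List.getElem?_drop, ← g2]
      congr 1
      omega
    obtain ⟨t, ht1, ht2⟩ := codes_get D.B (D.pre (lt r3)) o3 (x3, y3) g3
    obtain ⟨t', ht3, ht4⟩ := conv_get D.B (D.pre (lt r1)) _ o1 o3 (x1, y1) t _ g1 ht1 ht2
    have hT : (List.drop (startT D.L s) (conv D.B (D.pre (lt r1))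
        (codes D.B (D.pre (lt r3)))))[2 * (o2 - startU D.L s)]? = some t' := by
      rw [List.getElem?_drop, ← hidx.2]
      exact ht3
    have h9 := walk_get h7 hU hT
    have h10 := tst_false (B := D.B) (OFF := D.OFF) (p := (x2, y2)) (x1 + x3) (y1 + y3) v0 v1
      (by omega) (by omega) (t := t') (by
        rw [show (x1 + x3) * D.B + (y1 + y3) = x1 * D.B + y1 + (x3 * D.B + y3) by ring]
        exact ht4)
    rw [h10] at h9
    exact Bool.false_ne_true h9

end Pool.Agent.Work.MP_cabd9e_co
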