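import Pool.Agent.Work.MP_cabd9e_co.Img4Final

/-!
# Abelian squares of period at least four are avoidable over three letters

The word is the image, under a uniform map with images of length 32, of the fixed point of the
substitution `a → ace, b → adf, c → bdf, d → bdc, e → afe, f → bce` (a substitution of
M. Rao and M. Rosenfeld).
-/

namespace Pool.Agent.Results.MP_cabd9e_co.PeriodFour

/-- The factor of length `2 p` of the infinite ternary word `x` that starts at position `i` is an
abelian square of period `p`: its two halves contain each letter the same number of times. -/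
def AbelianSquareAt (x : ℕ → Fin 3) (i p : ℕ) : Prop :=
  1 ≤ p ∧ ∀ a : Fin 3, ((Finset.range p).filter (fun j => x (i + j) = a)).card =
    ((Finset.range p).filter (fun j => x (i + p + j) = a)).card

/-- Abelian squares of period at least `k` are avoidable over three letters: some infinite word
over three letters contains none of them. -/
def Avoidable (k : ℕ) : Prop :=
  ∃ x : ℕ → Fin 3, ∀ i p : ℕ, k ≤ p → ¬ AbelianSquareAt x i p

/-- Abelian squares of period at least `4` are avoidable over three letters; hence the least
positive `k` such that those of period at least `k` are avoidable exists and is at most `4`. -/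
theorem result : Avoidable 4 ∧
    ∃ k₃ : ℕ, IsLeast {k : ℕ | 1 ≤ k ∧ Avoidable k} k₃ ∧ k₃ ≤ 4 := by
  have h : Avoidable 4 := by
    refine ⟨Pool.Agent.Work.MP_cabd9e_co.img4.word3, fun i p hp hsq => ?_⟩
    obtain ⟨a, ha⟩ := Pool.Agent.Work.MP_cabd9e_co.img4_avoid i p hp
    exact ha (hsq.2 a)
  refine ⟨h, ?_⟩
  classical
  have hne : ∃ k : ℕ, 1 ≤ k ∧ Avoidable k := ⟨4, by norm_num, h⟩
  exact ⟨Nat.find hne, ⟨Nat.find_spec hne, fun k hk => Nat.find_min' hne hk⟩,
    Nat.find_min' hne ⟨by norm_num, h⟩⟩

end Pool.Agent.Results.MP_cabd9e_co.PeriodFour
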